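import Mathlib

/-!
Definitions: supercharacter theories (Diaconis-Isaacs), the unitriangular group and
the supercharacter theory of Andre.
-/

open scoped BigOperators

noncomputable section

namespace Pool.Agent.W368.SC

/-- `chi` is the character of an irreducible finite dimensional complex representation of `G`. -/
def IsIrrChar {G : Type} [Group G] (chi : G → ℂ) : Prop :=
  ∃ (V : Type) (_ : AddCommGroup V) (_ : Module ℂ V) (_ : FiniteDimensional ℂ V)
    (rho : Representation ℂ G V), rho.IsIrreducible ∧ chi = rho.character

/-- The set `Irr(G)` as a type. -/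
def IrrChar (G : Type) [Group G] : Type := {chi : G → ℂ // IsIrrChar chi}

/-- For a partition of `Irr(G)` (given as an equivalence relation) and `chi` in `Irr(G)`, this is
the function `sigma_X`, the sum of `psi(1) psi` over the block `X` of `chi`. -/
def sigma {G : Type} [Group G] (X : Setoid (IrrChar G)) (chi : IrrChar G) (g : G) : ℂ :=
  ∑ᶠ psi : {psi : IrrChar G // X.r chi psi}, psi.1.1 1 * psi.1.1 g

/-- A supercharacter theory of `G`: partitions of `Irr(G)` and of `G` (given as
equivalence relations) with the same number of blocks, such that `{1}` is a block and each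
`sigma_X` is constant on the blocks of the partition of `G`. -/
structure SuperTheory (G : Type) [Group G] where
  /-- the partition of `Irr(G)` -/
  chars : Setoid (IrrChar G)
  /-- the partition of `G` -/
  classes : Setoid G
  card_eq : Nat.card (Quotient chars) = Nat.card (Quotient classes)
  one_class : ∀ g : G, classes.r 1 g → g = 1
  const : ∀ (chi : IrrChar G) (g h : G), classes.r g h → sigma chars chi g = sigma chars chi h

/-- A theory contains an irreducible character `chi` if `{chi}` is a block. -/
def SuperTheory.Contains {G : Type} [Group G] (T : SuperTheory G) (chi : IrrChar G) : Prop :=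
  ∀ psi : IrrChar G, T.chars.r chi psi → psi = chi

/-- `A` is coarser than (or equal to) `T`: every superclass of `T` is contained in a
superclass of `A`, and every block of characters of `T` is contained in a block of `A`. -/
def SuperTheory.Coarser {G : Type} [Group G] (A T : SuperTheory G) : Prop :=
  (∀ g h : G, T.classes.r g h → A.classes.r g h) ∧
  (∀ chi psi : IrrChar G, T.chars.r chi psi → A.chars.r chi psi)

section UT

variable {n : ℕ} {F : Type} [Field F]

/-- upper unitriangular matrices -/
def IsUT (M : Matrix (Fin n) (Fin n) F) : Prop := ∀ i j, (j < i → M i j = 0) ∧ M i i = 1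

theorem IsUT.one : IsUT (1 : Matrix (Fin n) (Fin n) F) := by
  intro i j
  refine ⟨fun h => by rw [Matrix.one_apply, if_neg h.ne'], by simp⟩

theorem IsUT.mul {M N : Matrix (Fin n) (Fin n) F} (hM : IsUT M) (hN : IsUT N) :
    IsUT (M * N) := by
  intro i j
  constructor
  · intro h
    rw [Matrix.mul_apply]
    refine Finset.sum_eq_zero (fun k _ => ?_)
    rcases lt_or_ge k i with hk | hk
    · rw [(hM i k).1 hk, zero_mul]
    · rw [(hN k j).1 (lt_of_lt_of_le h hk), mul_zero]
  · rw [Matrix.mul_apply, Finset.sum_eq_single i]
    · rw [(hM i i).2, (hN i i).2, mul_one]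
    · intro k _ hk
      rcases lt_or_gt_of_ne hk with hk | hk
      · rw [(hM i k).1 hk, zero_mul]
      · rw [(hN k i).1 hk, mul_zero]
    · simp

theorem IsUT.det {M : Matrix (Fin n) (Fin n) F} (hM : IsUT M) : M.det = 1 := by
  have : M.BlockTriangular id := by
    intro i j h
    exact (hM i j).1 h
  rw [Matrix.det_of_isUpperTriangular this]
  exact Finset.prod_eq_one (fun i _ => (hM i i).2)

theorem IsUT.mul_inv {M : Matrix (Fin n) (Fin n) F} (hM : IsUT M) : M * M⁻¹ = 1 := by
  apply Matrix.mul_nonsing_inv
  rw [hM.det]; exact isUnit_one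

theorem IsUT.inv_mul {M : Matrix (Fin n) (Fin n) F} (hM : IsUT M) : M⁻¹ * M = 1 := by
  apply Matrix.nonsing_inv_mul
  rw [hM.det]; exact isUnit_one

theorem IsUT.inv {M : Matrix (Fin n) (Fin n) F} (hM : IsUT M) : IsUT M⁻¹ := by
  have hb : M.BlockTriangular id := by
    intro i j h
    exact (hM i j).1 h
  have : Invertible M := Matrix.invertibleOfIsUnitDet M (by rw [hM.det]; exact isUnit_one)
  have hb' : (M⁻¹).BlockTriangular id := Matrix.blockTriangular_inv_of_blockTriangular hb
  intro i j
  refine ⟨fun h => hb' h, ?_⟩
  have h1 := congrFun (congrFun hM.mul_inv i) i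
  rw [Matrix.mul_apply, Matrix.one_apply_eq, Finset.sum_eq_single i] at h1
  · rwa [(hM i i).2, one_mul] at h1
  · intro k _ hk
    rcases lt_or_gt_of_ne hk with hk | hk
    · rw [(hM i k).1 hk, zero_mul]
    · rw [hb' hk, mul_zero]
  · simp

variable (n F) in
/-- The group `U_n(F)` of upper unitriangular `n × n` matrices over `F`, as a subgroup of the
group of invertible matrices. -/
def U : Subgroup (Matrix (Fin n) (Fin n) F)ˣ where
  carrier := {g | IsUT g.1}
  mul_mem' := fun ha hb => ha.mul hb
  one_mem' := IsUT.one
  inv_mem' := by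
    intro x hx
    have h1 : (x⁻¹).1 = (x.1)⁻¹ := Matrix.coe_units_inv x
    show IsUT (x⁻¹).1
    rw [h1]
    exact IsUT.inv hx

variable (n F) in
/-- The space of strictly upper triangular `n × n` matrices over `F`. -/
def N : Submodule F (Matrix (Fin n) (Fin n) F) where
  carrier := {x | ∀ i j, j ≤ i → x i j = 0}
  add_mem' := by
    intro a b ha hb i j h
    rw [Matrix.add_apply, ha i j h, hb i j h, add_zero]
  zero_mem' := by
    intro i j _
    rfl
  smul_mem' := by
    intro c a ha i j h
    rw [Matrix.smul_apply, ha i j h, smul_zero]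

/-- `g ↦ g - 1` from `U_n(F)` to the strictly upper triangular matrices. -/
def sub1 (g : U n F) : N n F := ⟨g.1.1 - 1, by
  intro i j h
  rw [Matrix.sub_apply, Matrix.one_apply]
  rcases lt_or_eq_of_le h with h | h
  · rw [(g.2 i j).1 h, if_neg h.ne', sub_zero]
  · subst h
    rw [(g.2 j j).2, if_pos rfl, sub_self]⟩

/-- The map `x ↦ u x v` on strictly upper triangular matrices, for `u, v` in `U_n(F)`. -/
def act (u v : U n F) : N n F →ₗ[F] N n F where
  toFun x := ⟨u.1.1 * x.1 * v.1.1, by
    intro i j h
    rw [Matrix.mul_apply]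
    refine Finset.sum_eq_zero fun l _ => ?_
    rcases lt_or_ge j l with hl | hl
    · rw [(v.2 l j).1 hl, mul_zero]
    · rw [Matrix.mul_apply, Finset.sum_eq_zero, zero_mul]
      intro k _
      rcases lt_or_ge k i with hk | hk
      · rw [(u.2 i k).1 hk, zero_mul]
      · rw [x.2 k l (le_trans hl (le_trans h hk)), mul_zero]⟩
  map_add' x y := by
    apply Subtype.ext
    show u.1.1 * (x.1 + y.1) * v.1.1 = u.1.1 * x.1 * v.1.1 + u.1.1 * y.1 * v.1.1
    rw [mul_add, add_mul]
  map_smul' c x := by
    apply Subtype.ext
    show u.1.1 * (c • x.1) * v.1.1 = c • (u.1.1 * x.1 * v.1.1)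
    rw [mul_smul_comm, smul_mul_assoc]

/-- `g` and `h` lie in the same superclass of Andre's theory: `g - 1 = u (h - 1) v` for some
`u, v` in `U_n(F)`. -/
def SameSuperclass (g h : U n F) : Prop := ∃ u v : U n F, sub1 g = act u v (sub1 h)

/-- The two-sided orbit `U l U` of a linear functional `l` on the space of strictly upper
triangular matrices, where `(u l v)(y) = l(u y v)`. -/
def orb (l : Module.Dual F (N n F)) : Set (Module.Dual F (N n F)) :=
  {m | ∃ u v : U n F, m = l ∘ₗ act u v}

/-- Andre's supercharacter attached to the two-sided orbit of `l`, up to a positive scalar: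
the function `g ↦ ∑ theta(m(g - 1))`, the sum over `m` in the orbit `U l U`. -/
def orbSum (theta : AddChar F ℂ) (l : Module.Dual F (N n F)) (g : U n F) : ℂ :=
  ∑ᶠ m ∈ orb l, theta (m (sub1 g))

/-- The functional `y ↦ a * y i j` of a single box. -/
def box (i j : Fin n) (a : F) : Module.Dual F (N n F) where
  toFun y := a * y.1 i j
  map_add' x y := by
    show a * (x.1 + y.1) i j = _
    rw [Matrix.add_apply, mul_add]
  map_smul' c x := by
    show a * (c • x.1) i j = _
    rw [Matrix.smul_apply, smul_eq_mul, smul_eq_mul, RingHom.id_apply]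
    ring

/-- `chi` is, up to a positive scalar, the supercharacter indexed by the functional `l`. -/
def IsSuperChar (theta : AddChar F ℂ) (l : Module.Dual F (N n F)) (chi : IrrChar (U n F)) : Prop :=
  ∃ c : ℝ, 0 < c ∧ ∀ g, chi.1 g = (c : ℂ) * orbSum theta l g

/-- The theory `T` contains all single-box supercharacters as irreducible characters: for every
single box `(i,j)`, `i < j`, with label `a ≠ 0`, the supercharacter of the box is (up to a positive
scalar) an irreducible character `chi` and `{chi}` is a block of `T`. -/
def ContainsBoxes (theta : AddChar F ℂ) (T : SuperTheory (U n F)) : Prop :=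
  ∀ (i j : Fin n) (a : F), i < j → a ≠ 0 →
    ∃ chi : IrrChar (U n F), IsSuperChar theta (box i j a) chi ∧ T.Contains chi

/-- `A` is Andre's supercharacter theory of `U_n(F)`: its superclasses are the sets
`{g | g - 1 ∈ U (x - 1) U}`, and its supercharacters `sigma_X` are, up to positive scalars,
exactly the orbit sums of the two-sided orbits of linear functionals. -/
def IsAndre (theta : AddChar F ℂ) (A : SuperTheory (U n F)) : Prop :=
  (∀ g h : U n F, A.classes.r g h ↔ SameSuperclass g h) ∧
  (∀ chi : IrrChar (U n F), ∃ l : Module.Dual F (N n F), ∃ c : ℝ, 0 < c ∧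
    ∀ g, sigma A.chars chi g = (c : ℂ) * orbSum theta l g) ∧
  (∀ l : Module.Dual F (N n F), ∃ chi : IrrChar (U n F), ∃ c : ℝ, 0 < c ∧
    ∀ g, sigma A.chars chi g = (c : ℂ) * orbSum theta l g)

end UT

end Pool.Agent.W368.SC
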