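import Mathlib
import Pool.Agent.Helper884.IC.Compl
import Pool.Agent.W368.SC.Defs

/-!
Convolution of class functions with irreducible characters.
-/

open scoped BigOperators Classical

noncomputable section

namespace Pool.Agent.W368.SC

open Pool.Agent.Helper884.IC (B Irr mem_Irr IsClass B_irr expand)

theorem isIrrChar_iff {G : Type} [Group G] (chi : G → ℂ) :
    IsIrrChar chi ↔ Pool.Agent.Helper884.IC.IsIrrChar chi := Iff.rfl

variable {G : Type} [Group G] [Fintype G]

/-- convolution -/
def conv (f h : G → ℂ) (g : G) : ℂ := ∑ x : G, f (g * x⁻¹) * h x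

lemma cardG_ne : (Nat.card G : ℂ) ≠ 0 := by
  exact_mod_cast Nat.card_pos.ne'

omit [Fintype G] in
lemma IsIrrChar.isClass [Fintype G] {chi : G → ℂ} (h : IsIrrChar chi) : IsClass chi :=
  Pool.Agent.Helper884.IC.IsIrrChar.isClass ((isIrrChar_iff chi).mp h)

omit [Fintype G] in
lemma IsIrrChar.deg {chi : G → ℂ} (h : IsIrrChar chi) : ∃ d : ℕ, 0 < d ∧ chi 1 = d := by
  obtain ⟨V, _, _, _, rho, hirr, rfl⟩ := h
  haveI : Nontrivial V := by
    by_contra hn
    rw [not_nontrivial_iff_subsingleton] at hn
    have : Subsingleton (Subrepresentation rho) := by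
      constructor
      intro a b
      ext x
      have : x = 0 := Subsingleton.elim _ _
      subst this
      simp
    have h5 := hirr.toNontrivial
    exact not_subsingleton (Subrepresentation rho) this
  exact ⟨Module.finrank ℂ V, Module.finrank_pos, by simp⟩

omit [Fintype G] in
lemma IsIrrChar.one_ne {chi : G → ℂ} (h : IsIrrChar chi) : chi 1 ≠ 0 := by
  obtain ⟨d, hd, h1⟩ := h.deg
  rw [h1]
  exact_mod_cast hd.ne'

/-- For a class function `f` and an irreducible character `chi`, the convolution `f * chi` is a
scalar multiple of `chi`. -/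
theorem conv_irr {f chi : G → ℂ} (hf : IsClass f) (hchi : IsIrrChar chi) (g : G) :
    conv f chi g = ((Nat.card G : ℂ) * B f chi / chi 1) * chi g := by
  have h1 := hchi.one_ne
  obtain ⟨V, _, _, _, rho, hirr, rfl⟩ := hchi
  set T : V →ₗ[ℂ] V := ∑ y : G, f y • rho y⁻¹ with hT
  have hcomm : ∀ (h : G) (v : V), T (rho h v) = rho h (T v) := by
    intro h v
    simp only [hT, LinearMap.sum_apply, LinearMap.smul_apply, map_sum, map_smul]
    have : ∀ g : G, rho g⁻¹ (rho h v) = rho h (rho (h⁻¹ * g⁻¹ * h) v) := by
      intro g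
      rw [← Module.End.mul_apply, ← Module.End.mul_apply, ← map_mul, ← map_mul]
      congr 2
      group
    simp_rw [this]
    refine Fintype.sum_equiv (MulAut.conj h⁻¹).toEquiv _ _ ?_
    intro g
    have e1 : (MulAut.conj h⁻¹).toEquiv g = h⁻¹ * g * h := by simp
    rw [e1]
    have h1 : f (h⁻¹ * g * h) = f g := by
      have := hf g h⁻¹
      simpa using this
    rw [h1]
    congr 4
    group
  let T' : Representation.IntertwiningMap rho rho :=
    T.intertwiningMap_of_isIntertwiningMap rho rho hcomm
  obtain ⟨c, hc⟩ := (Representation.IsIrreducible.algebraMap_intertwiningMap_bijective_of_isAlgClosed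
    (ρ := rho)).2 T'
  have hTc : T = c • LinearMap.id := by
    ext v
    have := congrArg (fun S : Representation.IntertwiningMap rho rho => S v) hc
    have h2 : T' v = T v := rfl
    rw [← h2]
    exact this.symm
  have htr : ∀ g : G, LinearMap.trace ℂ V (T * rho g) = conv f rho.character g := by
    intro g
    rw [hT, Finset.sum_mul, map_sum]
    unfold conv
    symm
    refine Fintype.sum_equiv ((Equiv.inv G).trans (Equiv.mulLeft g)) _ _ ?_
    intro x
    simp only [Equiv.trans_apply, Equiv.inv_apply, Equiv.coe_mulLeft, smul_mul_assoc, map_smul,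
      smul_eq_mul]
    rw [← map_mul]
    congr 2
    simp [Representation.character]
  have h2 : ∀ g : G, conv f rho.character g = c * rho.character g := by
    intro g
    rw [← htr g, hTc]
    have e : (c • LinearMap.id : V →ₗ[ℂ] V) * rho g = c • rho g := by
      rw [smul_mul_assoc]
      rfl
    rw [e, map_smul, smul_eq_mul]
    rfl
  have h3 : c * rho.character 1 = (Nat.card G : ℂ) * B f rho.character := by
    rw [← h2 1]
    unfold B conv
    rw [mul_inv_cancel_left₀ cardG_ne]
    refine Fintype.sum_equiv (Equiv.inv G) _ _ ?_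
    intro x
    simp
  rw [h2, ← h3, mul_div_cancel_right₀ _ h1]

lemma conv_assoc (f h k : G → ℂ) : conv (conv f h) k = conv f (conv h k) := by
  funext g
  unfold conv
  simp only [Finset.sum_mul, Finset.mul_sum]
  conv_rhs => rw [Finset.sum_comm]
  refine Finset.sum_congr rfl fun x _ => ?_
  refine Fintype.sum_equiv (Equiv.mulRight x) _ _ ?_
  intro y
  simp [mul_assoc]

/-- If `f * f' = c f''` on the level of class functions then the eigenvalues multiply. -/
lemma eig_mul {f f' : G → ℂ} (hf : IsClass f) (hf' : IsClass f') {c : ℂ} {f'' : G → ℂ}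
    (hf'' : IsClass f'') (hc : conv f f' = c • f'') {chi : G → ℂ} (hchi : IsIrrChar chi) :
    ((Nat.card G : ℂ) * B f chi / chi 1) * ((Nat.card G : ℂ) * B f' chi / chi 1)
      = c * ((Nat.card G : ℂ) * B f'' chi / chi 1) := by
  have h1 := hchi.one_ne
  have e1 := congrFun (conv_assoc f f' chi) 1
  have e2 : conv f' chi = ((Nat.card G : ℂ) * B f' chi / chi 1) • chi := by
    funext g
    exact conv_irr hf' hchi g
  have e3 : conv (c • f'') chi = c • conv f'' chi := by
    funext g
    unfold conv
    simp [Finset.mul_sum, mul_assoc]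
  have e4 : conv f (((Nat.card G : ℂ) * B f' chi / chi 1) • chi)
      = ((Nat.card G : ℂ) * B f' chi / chi 1) • conv f chi := by
    funext g
    unfold conv
    simp only [Pi.smul_apply, smul_eq_mul, Finset.mul_sum]
    refine Finset.sum_congr rfl fun x _ => ?_
    ring
  rw [e2, e4, hc, e3] at e1
  simp only [Pi.smul_apply, smul_eq_mul] at e1
  rw [conv_irr hf hchi, conv_irr hf'' hchi] at e1
  have e5 : c * ((Nat.card G : ℂ) * B f'' chi / chi 1) * chi 1
    = ((Nat.card G : ℂ) * B f chi / chi 1) * ((Nat.card G : ℂ) * B f' chi / chi 1) * chi 1 := by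
    linear_combination e1
  exact (mul_right_cancel₀ h1 e5).symm

end Pool.Agent.W368.SC
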