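import Mathlib
import Pool.Agent.W368.SC.Conv

/-!
Fourier analysis on the strictly upper triangular matrices, and the orbit sums.
-/

open scoped BigOperators Classical

noncomputable section

namespace Pool.Agent.W368.SC

open Pool.Agent.Helper884.IC (B Irr mem_Irr IsClass B_irr expand)

variable {n : ℕ} {F : Type} [Field F]

/-- an element of `U` from a unitriangular matrix -/
def mkU (M : Matrix (Fin n) (Fin n) F) (h : IsUT M) : U n F :=
  ⟨⟨M, M⁻¹, h.mul_inv, h.inv_mul⟩, h⟩

lemma U_ext {g h : U n F} (H : g.1.1 = h.1.1) : g = h :=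
  Subtype.ext (Units.ext H)

lemma sub1_injective : Function.Injective (sub1 : U n F → N n F) := by
  intro g h H
  apply U_ext
  have := congrArg Subtype.val H
  exact sub_left_injective this

lemma sub1_surjective : Function.Surjective (sub1 : U n F → N n F) := by
  intro x
  refine ⟨mkU (1 + x.1) ?_, ?_⟩
  · intro i j
    refine ⟨fun h => ?_, ?_⟩
    · rw [Matrix.add_apply, x.2 i j h.le, Matrix.one_apply, if_neg h.ne', add_zero]
    · rw [Matrix.add_apply, x.2 i i le_rfl, Matrix.one_apply, if_pos rfl, add_zero]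
  · apply Subtype.ext
    show 1 + x.1 - 1 = x.1
    rw [add_sub_cancel_left]

lemma sub1_one : sub1 (1 : U n F) = 0 := by
  apply Subtype.ext
  show (1 : Matrix (Fin n) (Fin n) F) - 1 = 0
  rw [sub_self]

lemma sub1_eq_zero {g : U n F} : sub1 g = 0 ↔ g = 1 := by
  rw [← sub1_one]
  exact sub1_injective.eq_iff

lemma inv_mul_val (u : U n F) : (u⁻¹).1.1 * u.1.1 = 1 := by
  have := u.1.inv_mul
  simpa using this

lemma mul_inv_val (u : U n F) : u.1.1 * (u⁻¹).1.1 = 1 := by
  have := u.1.mul_inv
  simpa using this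

lemma mul_val (u v : U n F) : (u * v).1.1 = u.1.1 * v.1.1 := rfl

lemma one_val : (1 : U n F).1.1 = 1 := rfl

lemma act_val (u v : U n F) (x : N n F) : (act u v x).1 = u.1.1 * x.1 * v.1.1 := rfl

lemma act_act (u v u' v' : U n F) (x : N n F) :
    act u v (act u' v' x) = act (u * u') (v' * v) x := by
  apply Subtype.ext
  simp only [act_val, mul_val, mul_assoc]

lemma act_one (x : N n F) : act (1 : U n F) 1 x = x := by
  apply Subtype.ext
  simp only [act_val, one_val, one_mul, mul_one]

lemma sub1_mul_inv (g x : U n F) : sub1 (g * x⁻¹) = act 1 x⁻¹ (sub1 g - sub1 x) := by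
  apply Subtype.ext
  rw [act_val, one_val, one_mul]
  show (g * x⁻¹).1.1 - 1 = ((g.1.1 - 1) - (x.1.1 - 1)) * (x⁻¹).1.1
  rw [sub_sub_sub_cancel_right, sub_mul, mul_inv_val, mul_val]

lemma sub1_conj (g y : U n F) : sub1 (y * g * y⁻¹) = act y y⁻¹ (sub1 g) := by
  apply Subtype.ext
  rw [act_val]
  show (y * g * y⁻¹).1.1 - 1 = y.1.1 * (g.1.1 - 1) * (y⁻¹).1.1
  rw [mul_sub, mul_one, sub_mul, mul_inv_val, mul_val, mul_val]

/-- precomposition with `act u v`, as a permutation of the dual -/
def dAct (u v : U n F) : Module.Dual F (N n F) ≃ Module.Dual F (N n F) where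
  toFun m := m ∘ₗ act u v
  invFun m := m ∘ₗ act u⁻¹ v⁻¹
  left_inv m := by
    ext x
    simp [act_act, act_one]
  right_inv m := by
    ext x
    simp [act_act, act_one]

lemma dAct_apply (u v : U n F) (m : Module.Dual F (N n F)) (x : N n F) :
    dAct u v m x = m (act u v x) := rfl

lemma mem_orb_self (l : Module.Dual F (N n F)) : l ∈ orb l := by
  refine ⟨1, 1, ?_⟩
  ext x
  simp [act_one]

lemma dAct_mem_orb (u v : U n F) (l m : Module.Dual F (N n F)) :
    dAct u v m ∈ orb l ↔ m ∈ orb l := by
  constructor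
  · rintro ⟨a, b, h⟩
    refine ⟨a * u⁻¹, v⁻¹ * b, ?_⟩
    ext x
    have h1 := congrArg (fun f : Module.Dual F (N n F) => f (act u⁻¹ v⁻¹ x)) h
    simp only [dAct_apply, act_act, LinearMap.comp_apply] at h1
    simp only [mul_inv_cancel, inv_mul_cancel, act_one] at h1
    simpa using h1
  · rintro ⟨a, b, rfl⟩
    refine ⟨a * u, v * b, ?_⟩
    ext x
    simp [dAct_apply, act_act]

lemma orb_symm {l m : Module.Dual F (N n F)} (h : m ∈ orb l) : l ∈ orb m := by
  obtain ⟨u, v, rfl⟩ := h
  refine ⟨u⁻¹, v⁻¹, ?_⟩
  ext x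
  simp [act_act, act_one]

lemma orb_trans {l m k : Module.Dual F (N n F)} (h : m ∈ orb l) (h' : k ∈ orb m) : k ∈ orb l := by
  obtain ⟨u, v, rfl⟩ := h
  obtain ⟨u', v', rfl⟩ := h'
  refine ⟨u * u', v' * v, ?_⟩
  ext x
  simp [act_act]

lemma orb_eq_of_mem {l m : Module.Dual F (N n F)} (h : m ∈ orb l) : orb m = orb l := by
  ext k
  exact ⟨fun h' => orb_trans h h', fun h' => orb_trans (orb_symm h) h'⟩

section Fin

variable [Finite F]

instance finU : Finite (U n F) := by
  have h1 : Finite (Matrix (Fin n) (Fin n) F) := by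
    unfold Matrix
    infer_instance
  exact Finite.of_injective (fun g : U n F => g.1.1) (fun g h H => U_ext H)

instance finN : Finite (N n F) := by
  have h1 : Finite (Matrix (Fin n) (Fin n) F) := by
    unfold Matrix
    infer_instance
  infer_instance

instance finD : Finite (Module.Dual F (N n F)) := by
  have : Finite (N n F → F) := inferInstance
  exact Finite.of_injective (fun l : Module.Dual F (N n F) => (l : N n F → F))
    DFunLike.coe_injective

instance ftU : Fintype (U n F) := Fintype.ofFinite _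
instance ftN : Fintype (N n F) := Fintype.ofFinite _
instance ftD : Fintype (Module.Dual F (N n F)) := Fintype.ofFinite _

lemma card_U : Nat.card (U n F) = Nat.card (N n F) :=
  Nat.card_congr (Equiv.ofBijective sub1 ⟨sub1_injective, sub1_surjective⟩)

instance : FiniteDimensional F (N n F) := inferInstance

lemma card_D : Nat.card (Module.Dual F (N n F)) = Nat.card (N n F) := by
  have : Fintype F := Fintype.ofFinite F
  rw [Nat.card_eq_fintype_card, Nat.card_eq_fintype_card,
    Module.card_eq_pow_finrank (K := F), Module.card_eq_pow_finrank (K := F) (V := N n F),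
    Subspace.dual_finrank_eq]

variable {theta : AddChar F ℂ} (htheta : ∃ x, theta x ≠ 1)

include htheta

omit [Finite F] in
lemma sum_char_dual [Finite F] (x : N n F) :
    ∑ m : Module.Dual F (N n F), theta (m x) = if x = 0 then (Nat.card (N n F) : ℂ) else 0 := by
  split_ifs with h
  · subst h
    simp only [map_zero, AddChar.map_zero_eq_one, Finset.sum_const, Finset.card_univ]
    rw [nsmul_eq_mul, mul_one, ← Nat.card_eq_fintype_card, card_D]
  · obtain ⟨c, hc⟩ := htheta
    obtain ⟨l, hl⟩ : ∃ l : Module.Dual F (N n F), l x ≠ 0 := by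
      by_contra hcon
      push Not at hcon
      exact h ((Module.forall_dual_apply_eq_zero_iff F x).mp hcon)
    set l' : Module.Dual F (N n F) := (c * (l x)⁻¹) • l with hl'
    have h1 : l' x = c := by
      rw [hl', LinearMap.smul_apply, smul_eq_mul, mul_assoc, inv_mul_cancel₀ hl, mul_one]
    have h2 : ∑ m : Module.Dual F (N n F), theta (m x)
        = theta c * ∑ m : Module.Dual F (N n F), theta (m x) := by
      rw [Finset.mul_sum]
      symm
      refine Fintype.sum_equiv (Equiv.addLeft l') _ _ ?_
      intro m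
      rw [Equiv.coe_addLeft, LinearMap.add_apply, AddChar.map_add_eq_mul, h1]
    have h3 : (1 - theta c) * ∑ m : Module.Dual F (N n F), theta (m x) = 0 := by
      linear_combination h2
    rcases mul_eq_zero.mp h3 with h4 | h4
    · exact absurd (sub_eq_zero.mp h4).symm hc
    · exact h4

omit [Finite F] in
lemma sum_char_N [Finite F] (m : Module.Dual F (N n F)) :
    ∑ x : N n F, theta (m x) = if m = 0 then (Nat.card (N n F) : ℂ) else 0 := by
  split_ifs with h
  · subst h
    simp only [LinearMap.zero_apply, AddChar.map_zero_eq_one, Finset.sum_const, Finset.card_univ]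
    rw [nsmul_eq_mul, mul_one, ← Nat.card_eq_fintype_card]
  · obtain ⟨c, hc⟩ := htheta
    obtain ⟨y, hy⟩ : ∃ y : N n F, m y ≠ 0 := by
      by_contra hcon
      push Not at hcon
      exact h (LinearMap.ext hcon)
    have h1 : m ((c * (m y)⁻¹) • y) = c := by
      rw [map_smul, smul_eq_mul, mul_assoc, inv_mul_cancel₀ hy, mul_one]
    have h2 : ∑ x : N n F, theta (m x) = theta c * ∑ x : N n F, theta (m x) := by
      rw [Finset.mul_sum]
      symm
      refine Fintype.sum_equiv (Equiv.addLeft ((c * (m y)⁻¹) • y)) _ _ ?_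
      intro x
      rw [Equiv.coe_addLeft, map_add, AddChar.map_add_eq_mul, h1]
    have h3 : (1 - theta c) * ∑ x : N n F, theta (m x) = 0 := by
      linear_combination h2
    rcases mul_eq_zero.mp h3 with h4 | h4
    · exact absurd (sub_eq_zero.mp h4).symm hc
    · exact h4

lemma sum_char_U (m : Module.Dual F (N n F)) :
    ∑ g : U n F, theta (m (sub1 g)) = if m = 0 then (Nat.card (U n F) : ℂ) else 0 := by
  rw [card_U, ← sum_char_N htheta m]
  exact Fintype.sum_equiv (Equiv.ofBijective sub1 ⟨sub1_injective, sub1_surjective⟩) _ _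
    (fun g => rfl)

end Fin

end Pool.Agent.W368.SC
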