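import Mathlib
import Pool.Agent.W368.SC.Fourier

/-!
Orbit sums and irreducible characters.
-/

open scoped BigOperators Classical

noncomputable section

namespace Pool.Agent.W368.SC

open Pool.Agent.Helper884.IC (B Irr mem_Irr IsClass B_irr expand)

variable {n : ℕ} {F : Type} [Field F] [Finite F] {theta : AddChar F ℂ}

lemma orbSum_eq (l : Module.Dual F (N n F)) (g : U n F) :
    orbSum theta l g
      = ∑ m : Module.Dual F (N n F), if m ∈ orb l then theta (m (sub1 g)) else 0 := by
  unfold orbSum
  rw [finsum_mem_eq_finite_toFinset_sum _ (Set.toFinite (orb l)), ← Finset.sum_filter]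
  refine Finset.sum_congr ?_ fun _ _ => rfl
  ext m
  simp

lemma orbSum_congr {l m : Module.Dual F (N n F)} (h : m ∈ orb l) :
    orbSum theta m = orbSum theta l := by
  funext g
  unfold orbSum
  rw [orb_eq_of_mem h]

/-- summing over the orbit is invariant under `dAct` -/
lemma sum_orb_reindex (l : Module.Dual F (N n F)) (u v : U n F) (x : N n F) :
    (∑ m : Module.Dual F (N n F), if m ∈ orb l then theta (m (act u v x)) else 0)
      = ∑ m : Module.Dual F (N n F), if m ∈ orb l then theta (m x) else 0 := by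
  refine Fintype.sum_equiv (dAct u v) _ _ ?_
  intro m
  simp only [dAct_mem_orb, dAct_apply]

lemma orbSum_superclass (l : Module.Dual F (N n F)) {g h : U n F} (H : SameSuperclass g h) :
    orbSum theta l g = orbSum theta l h := by
  obtain ⟨u, v, H⟩ := H
  rw [orbSum_eq, orbSum_eq, H, sum_orb_reindex]

lemma orbSum_isClass (l : Module.Dual F (N n F)) : IsClass (orbSum theta l) := by
  intro g y
  rw [orbSum_eq, orbSum_eq]
  simp only [sub1_conj]
  exact sum_orb_reindex l y y⁻¹ (sub1 g)

lemma orbSum_one (l : Module.Dual F (N n F)) :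
    orbSum theta l (1 : U n F) = (Nat.card (orb l) : ℂ) := by
  rw [orbSum_eq, sub1_one]
  simp only [map_zero, AddChar.map_zero_eq_one]
  rw [Finset.sum_boole]
  congr 1
  rw [Nat.card_eq_fintype_card, Fintype.card_subtype]

lemma card_orb_pos (l : Module.Dual F (N n F)) : 0 < Nat.card (orb l) := by
  have : Nonempty (orb l) := ⟨⟨l, mem_orb_self l⟩⟩
  exact Nat.card_pos

lemma conv_orbSum (l : Module.Dual F (N n F)) (phi : U n F → ℂ) (g : U n F) :
    conv (orbSum theta l) phi g
      = ∑ m : Module.Dual F (N n F), if m ∈ orb l then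
          (∑ x : U n F, phi x * theta (-(m (sub1 x)))) * theta (m (sub1 g)) else 0 := by
  unfold conv
  have h1 : ∀ x : U n F, orbSum theta l (g * x⁻¹) * phi x
      = ∑ m : Module.Dual F (N n F), if m ∈ orb l then
        (phi x * theta (-(m (sub1 x)))) * theta (m (sub1 g)) else 0 := by
    intro x
    rw [orbSum_eq, sub1_mul_inv, sum_orb_reindex, Finset.sum_mul]
    refine Finset.sum_congr rfl fun m _ => ?_
    split_ifs with h
    · rw [map_sub, sub_eq_add_neg, AddChar.map_add_eq_mul]
      ring
    · rw [zero_mul]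
  simp_rw [h1]
  rw [Finset.sum_comm]
  refine Finset.sum_congr rfl fun m _ => ?_
  split_ifs with h
  · rw [Finset.sum_mul]
  · simp

section

variable (htheta : ∃ x, theta x ≠ 1)

include htheta

lemma hat_orbSum (l m : Module.Dual F (N n F)) :
    ∑ x : U n F, orbSum theta l x * theta (-(m (sub1 x)))
      = if m ∈ orb l then (Nat.card (U n F) : ℂ) else 0 := by
  have h1 : ∀ x : U n F, orbSum theta l x * theta (-(m (sub1 x)))
      = ∑ m' : Module.Dual F (N n F), if m' ∈ orb l then theta ((m' - m) (sub1 x)) else 0 := by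
    intro x
    rw [orbSum_eq, Finset.sum_mul]
    refine Finset.sum_congr rfl fun m' _ => ?_
    split_ifs with h
    · rw [LinearMap.sub_apply, sub_eq_add_neg, AddChar.map_add_eq_mul]
    · rw [zero_mul]
  simp_rw [h1]
  rw [Finset.sum_comm]
  have h2 : ∀ m' : Module.Dual F (N n F),
      (∑ x : U n F, if m' ∈ orb l then theta ((m' - m) (sub1 x)) else 0)
        = if m' = m then (if m ∈ orb l then (Nat.card (U n F) : ℂ) else 0) else 0 := by
    intro m'
    by_cases h : m' ∈ orb l
    · simp only [if_pos h]
      rw [sum_char_U htheta]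
      by_cases h' : m' = m
      · subst h'
        rw [if_pos (sub_self _), if_pos rfl, if_pos h]
      · rw [if_neg (fun h'' => h' (sub_eq_zero.mp h'')), if_neg h']
    · simp only [if_neg h, Finset.sum_const_zero]
      by_cases h' : m' = m
      · subst h'
        rw [if_pos rfl, if_neg h]
      · rw [if_neg h']
  simp_rw [h2]
  simp

lemma conv_self (l : Module.Dual F (N n F)) :
    conv (orbSum theta l) (orbSum theta l) = (Nat.card (U n F) : ℂ) • orbSum theta l := by
  funext g
  rw [conv_orbSum, Pi.smul_apply, orbSum_eq, smul_eq_mul, Finset.mul_sum]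
  refine Finset.sum_congr rfl fun m _ => ?_
  split_ifs with h
  · rw [hat_orbSum htheta, if_pos h]
  · rw [mul_zero]

lemma conv_other {l l' : Module.Dual F (N n F)} (hl : l' ∉ orb l) :
    conv (orbSum theta l) (orbSum theta l') = (0 : ℂ) • orbSum theta l := by
  funext g
  rw [conv_orbSum, Pi.smul_apply, zero_smul]
  refine Finset.sum_eq_zero fun m _ => ?_
  split_ifs with h
  · rw [hat_orbSum htheta, if_neg, zero_mul]
    intro h'
    exact hl (orb_trans h (orb_symm h'))
  · rfl

lemma B_orbSum {chi : U n F → ℂ} (hchi : IsIrrChar chi) (l : Module.Dual F (N n F)) :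
    B (orbSum theta l) chi = 0 ∨ B (orbSum theta l) chi = chi 1 := by
  have h1 := eig_mul (orbSum_isClass l) (orbSum_isClass l) (orbSum_isClass l)
    (conv_self htheta l) hchi
  have h2 := hchi.one_ne
  have h3 : (Nat.card (U n F) : ℂ) ≠ 0 := cardG_ne
  by_cases h : B (orbSum theta l) chi = 0
  · exact Or.inl h
  · right
    have h4 : ((Nat.card (U n F) : ℂ) * B (orbSum theta l) chi / chi 1) ≠ 0 :=
      div_ne_zero (mul_ne_zero h3 h) h2
    have h5 := mul_right_cancel₀ h4 h1
    rw [div_eq_iff h2] at h5
    exact mul_left_cancel₀ h3 h5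

lemma orb_unique {chi : U n F → ℂ} (hchi : IsIrrChar chi) {l l' : Module.Dual F (N n F)}
    (h : B (orbSum theta l) chi ≠ 0) (h' : B (orbSum theta l') chi ≠ 0) : l' ∈ orb l := by
  by_contra hcon
  have h1 := eig_mul (orbSum_isClass l) (orbSum_isClass l') (orbSum_isClass l)
    (conv_other htheta hcon) hchi
  have h2 := hchi.one_ne
  have h3 : (Nat.card (U n F) : ℂ) ≠ 0 := cardG_ne
  rw [zero_mul] at h1
  rcases mul_eq_zero.mp h1 with h4 | h4
  · exact div_ne_zero (mul_ne_zero h3 h) h2 h4
  · exact div_ne_zero (mul_ne_zero h3 h') h2 h4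

lemma orb_exists {chi : U n F → ℂ} (hchi : IsIrrChar chi) :
    ∃ l : Module.Dual F (N n F), B (orbSum theta l) chi ≠ 0 := by
  by_contra hcon
  push Not at hcon
  have h1 : B (∑ l : Module.Dual F (N n F),
      ((Nat.card (orb l) : ℂ)⁻¹) • orbSum theta l) chi = 0 := by
    have := Pool.Agent.Helper884.IC.B_sum_left (Finset.univ : Finset (Module.Dual F (N n F)))
      (fun l => ((Nat.card (orb l) : ℂ)⁻¹) • orbSum theta l) chi
    rw [this]
    refine Finset.sum_eq_zero fun l _ => ?_
    rw [Pool.Agent.Helper884.IC.B_smul_left, hcon l, mul_zero]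
  have h2 : (∑ l : Module.Dual F (N n F), ((Nat.card (orb l) : ℂ)⁻¹) • orbSum theta l)
      = fun g : U n F => if g = 1 then (Nat.card (U n F) : ℂ) else 0 := by
    funext g
    rw [Finset.sum_apply]
    simp only [Pi.smul_apply, smul_eq_mul, orbSum_eq, Finset.mul_sum]
    rw [Finset.sum_comm]
    have h3 : ∀ m : Module.Dual F (N n F), (∑ l : Module.Dual F (N n F),
        (Nat.card (orb l) : ℂ)⁻¹ * (if m ∈ orb l then theta (m (sub1 g)) else 0))
          = theta (m (sub1 g)) := by
      intro m
      have h4 : ∀ l : Module.Dual F (N n F),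
          (Nat.card (orb l) : ℂ)⁻¹ * (if m ∈ orb l then theta (m (sub1 g)) else 0)
          = ((Nat.card (orb m) : ℂ)⁻¹ * theta (m (sub1 g))) * (if l ∈ orb m then 1 else 0) := by
        intro l
        by_cases h : m ∈ orb l
        · rw [if_pos h, if_pos (orb_symm h), orb_eq_of_mem h, mul_one]
        · rw [if_neg h, if_neg (fun h' => h (orb_symm h')), mul_zero, mul_zero]
      simp_rw [h4]
      rw [← Finset.mul_sum, Finset.sum_boole]
      have h5 : ((Finset.univ.filter (fun l => l ∈ orb m)).card : ℂ) = (Nat.card (orb m) : ℂ) := by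
        congr 1
        rw [Nat.card_eq_fintype_card, Fintype.card_subtype]
      rw [h5]
      have h6 : (Nat.card (orb m) : ℂ) ≠ 0 := by
        exact_mod_cast (card_orb_pos m).ne'
      field_simp
    simp_rw [h3]
    rw [sum_char_dual htheta, card_U]
    simp only [sub1_eq_zero]
  rw [h2] at h1
  unfold B at h1
  simp only [ite_mul, zero_mul] at h1
  rw [Finset.sum_ite_eq' Finset.univ (1 : U n F)] at h1
  simp only [Finset.mem_univ, if_true, inv_one] at h1
  rw [inv_mul_cancel_left₀ cardG_ne] at h1
  exact hchi.one_ne h1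

omit htheta in
lemma char_exists (l : Module.Dual F (N n F)) :
    ∃ chi : U n F → ℂ, IsIrrChar chi ∧ B (orbSum theta l) chi ≠ 0 := by
  by_contra hcon
  push Not at hcon
  have h1 := Pool.Agent.Helper884.IC.class_eq_zero (orbSum theta l) (orbSum_isClass l)
    (fun chi hchi => hcon chi ((isIrrChar_iff chi).mpr hchi))
  have h2 := congrFun h1 1
  rw [orbSum_one, Pi.zero_apply] at h2
  exact (card_orb_pos l).ne' (by exact_mod_cast h2)

end

end Pool.Agent.W368.SC
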