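import Mathlib
import Pool.Agent.W368.SC.Orbit

/-!
Andre's theory is a supercharacter theory.
-/

open scoped BigOperators Classical

noncomputable section

namespace Pool.Agent.W368.SC

open Pool.Agent.Helper884.IC (B Irr mem_Irr IsClass B_irr expand)

section General

variable {G : Type} [Group G] [Fintype G]

lemma finIrr : Finite (IrrChar G) :=
  (Pool.Agent.Helper884.IC.irr_finite (G := G)).to_subtype

instance ftIrr : Fintype (IrrChar G) := @Fintype.ofFinite _ finIrr

lemma expand' {f : G → ℂ} (hf : IsClass f) (g : G) :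
    f g = ∑ chi : IrrChar G, B f chi.1 * chi.1 g := by
  conv_lhs => rw [expand f hf]
  rw [Finset.sum_apply]
  simp only [Pi.smul_apply, smul_eq_mul]
  refine Finset.sum_bij' (fun chi h => (⟨chi, mem_Irr.mp h⟩ : IrrChar G)) (fun chi _ => chi.1)
    (fun _ _ => Finset.mem_univ _) (fun chi _ => mem_Irr.mpr chi.2) (fun _ _ => rfl)
    (fun _ _ => rfl) (fun _ _ => rfl)

lemma sigma_eq (X : Setoid (IrrChar G)) (chi : IrrChar G) (g : G) :
    sigma X chi g = ∑ psi : IrrChar G, if X.r chi psi then psi.1 1 * psi.1 g else 0 := by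
  unfold sigma
  rw [finsum_eq_sum_of_fintype, ← Finset.sum_filter]
  symm
  refine Finset.sum_subtype _ ?_ _
  intro x
  simp

lemma B_sigma (X : Setoid (IrrChar G)) (chi psi : IrrChar G) :
    B (sigma X chi) psi.1 = if X.r chi psi then psi.1 1 else 0 := by
  have h1 : sigma X chi = ∑ rho : IrrChar G, (if X.r chi rho then rho.1 1 else 0) • rho.1 := by
    funext g
    rw [sigma_eq, Finset.sum_apply]
    refine Finset.sum_congr rfl fun rho _ => ?_
    rw [Pi.smul_apply, smul_eq_mul]
    split_ifs <;> simp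
  rw [h1, Pool.Agent.Helper884.IC.B_sum_left]
  simp only [Pool.Agent.Helper884.IC.B_smul_left]
  rw [Finset.sum_eq_single psi]
  · rw [B_irr psi.2 psi.2, if_pos rfl, mul_one]
  · intro rho _ hne
    rw [B_irr rho.2 psi.2, if_neg (fun h => hne (Subtype.ext h)), mul_zero]
  · intro h
    exact absurd (Finset.mem_univ _) h

end General

variable {n : ℕ} {F : Type} [Field F] [Finite F] {theta : AddChar F ℂ}

/-- the superclasses of Andre's theory -/
def clSetoid (n : ℕ) (F : Type) [Field F] : Setoid (U n F) where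
  r := SameSuperclass
  iseqv := by
    refine ⟨fun g => ⟨1, 1, (act_one _).symm⟩, ?_, ?_⟩
    · rintro g h ⟨u, v, H⟩
      refine ⟨u⁻¹, v⁻¹, ?_⟩
      rw [H, act_act, inv_mul_cancel, mul_inv_cancel, act_one]
    · rintro g h k ⟨u, v, H⟩ ⟨u', v', H'⟩
      refine ⟨u * u', v' * v, ?_⟩
      rw [H, H', act_act]

/-- the orbits on functionals -/
def orbSetoid (n : ℕ) (F : Type) [Field F] : Setoid (Module.Dual F (N n F)) where
  r l m := m ∈ orb l
  iseqv := ⟨mem_orb_self, orb_symm, orb_trans⟩

/-- the blocks of irreducible characters in Andre's theory -/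
def chSetoid (n : ℕ) {F : Type} [Field F] [Finite F] {theta : AddChar F ℂ}
    (htheta : ∃ x, theta x ≠ 1) : Setoid (IrrChar (U n F)) where
  r chi psi := ∃ l : Module.Dual F (N n F),
    B (orbSum theta l) chi.1 ≠ 0 ∧ B (orbSum theta l) psi.1 ≠ 0
  iseqv := by
    refine ⟨?_, ?_, ?_⟩
    · intro chi
      obtain ⟨l, hl⟩ := orb_exists htheta chi.2
      exact ⟨l, hl, hl⟩
    · rintro chi psi ⟨l, h1, h2⟩
      exact ⟨l, h2, h1⟩
    · rintro chi psi rho ⟨l, h1, h2⟩ ⟨l', h3, h4⟩
      refine ⟨l, h1, ?_⟩
      have := orb_unique htheta psi.2 h2 h3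
      rwa [orbSum_congr this] at h4

lemma sigma_andre (htheta : ∃ x, theta x ≠ 1) (chi : IrrChar (U n F))
    (l : Module.Dual F (N n F)) (hl : B (orbSum theta l) chi.1 ≠ 0) :
    sigma (chSetoid n htheta) chi = orbSum theta l := by
  funext g
  rw [sigma_eq, expand' (orbSum_isClass l) g]
  refine Finset.sum_congr rfl fun psi _ => ?_
  by_cases h : B (orbSum theta l) psi.1 = 0
  · rw [h, zero_mul, if_neg]
    rintro ⟨l', h1, h2⟩
    have := orb_unique htheta chi.2 hl h1
    rw [orbSum_congr this] at h2
    exact h2 h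
  · rw [if_pos ⟨l, hl, h⟩]
    rcases B_orbSum htheta psi.2 l with h' | h'
    · exact absurd h' h
    · rw [h']

section Card

/-- invariance in the other variable -/
lemma sum_U_reindex (phi : Quotient (clSetoid n F) → ℂ) (u v : U n F)
    (m : Module.Dual F (N n F)) :
    ∑ g : U n F, phi ⟦g⟧ * theta ((dAct u v m) (sub1 g))
      = ∑ g : U n F, phi ⟦g⟧ * theta (m (sub1 g)) := by
  -- the permutation g ↦ 1 + u (g - 1) v
  have hb : Function.Bijective (fun x : N n F => act u v x) := by
    refine ⟨?_, ?_⟩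
    · intro x y h
      have := congrArg (fun z => act u⁻¹ v⁻¹ z) h
      simpa [act_act, act_one] using this
    · intro x
      refine ⟨act u⁻¹ v⁻¹ x, ?_⟩
      simp [act_act, act_one]
  let e1 : U n F ≃ N n F := Equiv.ofBijective sub1 ⟨sub1_injective, sub1_surjective⟩
  let e2 : N n F ≃ N n F := Equiv.ofBijective _ hb
  refine Fintype.sum_equiv ((e1.trans e2).trans e1.symm) _ _ ?_
  intro g
  have h1 : sub1 (((e1.trans e2).trans e1.symm) g) = act u v (sub1 g) :=
    e1.apply_symm_apply _
  have h2 : (⟦((e1.trans e2).trans e1.symm) g⟧ : Quotient (clSetoid n F)) = ⟦g⟧ :=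
    Quotient.sound ⟨u, v, h1⟩
  rw [h2, h1]
  rfl

lemma sum_D_reindex (c : Quotient (orbSetoid n F) → ℂ) {g h : U n F}
    (H : SameSuperclass g h) :
    ∑ m : Module.Dual F (N n F), c ⟦m⟧ * theta (m (sub1 g))
      = ∑ m : Module.Dual F (N n F), c ⟦m⟧ * theta (m (sub1 h)) := by
  obtain ⟨u, v, H⟩ := H
  refine Fintype.sum_equiv (dAct u v) _ _ ?_
  intro m
  have h2 : (⟦dAct u v m⟧ : Quotient (orbSetoid n F)) = ⟦m⟧ := by
    refine (Quotient.sound ?_).symm
    exact (dAct_mem_orb u v m m).mpr (mem_orb_self m)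
  rw [h2, H]
  rfl

variable (htheta : ∃ x, theta x ≠ 1)

include htheta

lemma card_le_1 : Nat.card (Quotient (orbSetoid n F)) ≤ Nat.card (Quotient (clSetoid n F)) := by
  let L : (Quotient (orbSetoid n F) → ℂ) →ₗ[ℂ] (Quotient (clSetoid n F) → ℂ) :=
    { toFun := fun c q => ∑ m : Module.Dual F (N n F), c ⟦m⟧ * theta (m (sub1 (Quotient.out q)))
      map_add' := by
        intro a b
        funext q
        simp only [Pi.add_apply, add_mul, Finset.sum_add_distrib]
      map_smul' := by
        intro a b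
        funext q
        simp only [Pi.smul_apply, smul_eq_mul, mul_assoc, Finset.mul_sum, RingHom.id_apply] }
  have hL : Function.Injective L := by
    rw [← LinearMap.ker_eq_bot, LinearMap.ker_eq_bot']
    intro c hc
    have h1 : ∀ g : U n F, ∑ m : Module.Dual F (N n F), c ⟦m⟧ * theta (m (sub1 g)) = 0 := by
      intro g
      have h2 := congrFun hc ⟦g⟧
      refine Eq.trans ?_ h2
      refine sum_D_reindex c ?_
      have h3 : (clSetoid n F).r (Quotient.out (⟦g⟧ : Quotient (clSetoid n F))) g :=
        Quotient.exact (Quotient.out_eq _)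
      exact (clSetoid n F).symm h3
    funext q
    obtain ⟨m0, rfl⟩ := Quotient.exists_rep q
    have h2 : ∑ g : U n F, (∑ m : Module.Dual F (N n F), c ⟦m⟧ * theta (m (sub1 g)))
        * theta (-(m0 (sub1 g))) = c ⟦m0⟧ * (Nat.card (U n F) : ℂ) := by
      have h3 : ∀ g : U n F, (∑ m : Module.Dual F (N n F), c ⟦m⟧ * theta (m (sub1 g)))
        * theta (-(m0 (sub1 g)))
        = ∑ m : Module.Dual F (N n F), c ⟦m⟧ * theta ((m - m0) (sub1 g)) := by
        intro g
        rw [Finset.sum_mul]
        refine Finset.sum_congr rfl fun m _ => ?_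
        rw [LinearMap.sub_apply, sub_eq_add_neg, AddChar.map_add_eq_mul, mul_assoc]
      simp_rw [h3]
      rw [Finset.sum_comm]
      simp_rw [← Finset.mul_sum, sum_char_U htheta, sub_eq_zero]
      simp
    simp only [h1, zero_mul, Finset.sum_const_zero] at h2
    have h4 : (Nat.card (U n F) : ℂ) ≠ 0 := cardG_ne
    rcases mul_eq_zero.mp h2.symm with h5 | h5
    · exact h5
    · exact absurd h5 h4
  have := LinearMap.finrank_le_finrank_of_injective hL
  rw [Module.finrank_fintype_fun_eq_card, Module.finrank_fintype_fun_eq_card,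
    ← Nat.card_eq_fintype_card, ← Nat.card_eq_fintype_card] at this
  exact this

lemma card_le_2 : Nat.card (Quotient (clSetoid n F)) ≤ Nat.card (Quotient (orbSetoid n F)) := by
  let L : (Quotient (clSetoid n F) → ℂ) →ₗ[ℂ] (Quotient (orbSetoid n F) → ℂ) :=
    { toFun := fun c q => ∑ g : U n F, c ⟦g⟧ * theta ((Quotient.out q) (sub1 g))
      map_add' := by
        intro a b
        funext q
        simp only [Pi.add_apply, add_mul, Finset.sum_add_distrib]
      map_smul' := by
        intro a b
        funext q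
        simp only [Pi.smul_apply, smul_eq_mul, mul_assoc, Finset.mul_sum, RingHom.id_apply] }
  have hL : Function.Injective L := by
    rw [← LinearMap.ker_eq_bot, LinearMap.ker_eq_bot']
    intro c hc
    have h1 : ∀ m : Module.Dual F (N n F), ∑ g : U n F, c ⟦g⟧ * theta (m (sub1 g)) = 0 := by
      intro m
      have h2 := congrFun hc ⟦m⟧
      have h3 : (orbSetoid n F).r (Quotient.out (⟦m⟧ : Quotient (orbSetoid n F))) m :=
        Quotient.exact (Quotient.out_eq _)
      obtain ⟨u, v, h3⟩ := h3
      have h4 := sum_U_reindex (theta := theta) c u v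
        (Quotient.out (⟦m⟧ : Quotient (orbSetoid n F)))
      have h5 : dAct u v (Quotient.out (⟦m⟧ : Quotient (orbSetoid n F))) = m := h3.symm
      rw [h5] at h4
      rw [h4]
      exact h2
    funext q
    obtain ⟨g0, rfl⟩ := Quotient.exists_rep q
    have h2 : ∑ m : Module.Dual F (N n F), (∑ g : U n F, c ⟦g⟧ * theta (m (sub1 g)))
        * theta (-(m (sub1 g0))) = c ⟦g0⟧ * (Nat.card (N n F) : ℂ) := by
      have h3 : ∀ m : Module.Dual F (N n F), (∑ g : U n F, c ⟦g⟧ * theta (m (sub1 g)))
        * theta (-(m (sub1 g0)))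
        = ∑ g : U n F, c ⟦g⟧ * theta (m (sub1 g - sub1 g0)) := by
        intro m
        rw [Finset.sum_mul]
        refine Finset.sum_congr rfl fun g _ => ?_
        rw [map_sub, sub_eq_add_neg, AddChar.map_add_eq_mul, mul_assoc]
      simp_rw [h3]
      rw [Finset.sum_comm]
      simp_rw [← Finset.mul_sum, sum_char_dual htheta, sub_eq_zero, sub1_injective.eq_iff]
      simp
    simp only [h1, zero_mul, Finset.sum_const_zero] at h2
    have h4 : (Nat.card (N n F) : ℂ) ≠ 0 := by
      rw [← card_U]
      exact cardG_ne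
    rcases mul_eq_zero.mp h2.symm with h5 | h5
    · exact h5
    · exact absurd h5 h4
  have := LinearMap.finrank_le_finrank_of_injective hL
  rw [Module.finrank_fintype_fun_eq_card, Module.finrank_fintype_fun_eq_card,
    ← Nat.card_eq_fintype_card, ← Nat.card_eq_fintype_card] at this
  exact this

lemma card_ch : Nat.card (Quotient (chSetoid n htheta)) = Nat.card (Quotient (orbSetoid n F)) := by
  -- the map from characters to orbits
  let f : IrrChar (U n F) → Quotient (orbSetoid n F) := fun chi =>
    ⟦Classical.choose (orb_exists htheta chi.2)⟧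
  have hf : ∀ (chi : IrrChar (U n F)) (l : Module.Dual F (N n F)),
      B (orbSum theta l) chi.1 ≠ 0 → f chi = ⟦l⟧ := by
    intro chi l hl
    refine Quotient.sound ?_
    exact orb_unique htheta chi.2 (Classical.choose_spec (orb_exists htheta chi.2)) hl
  have hf' : ∀ chi psi : IrrChar (U n F), (chSetoid n htheta).r chi psi ↔ f chi = f psi := by
    intro chi psi
    constructor
    · rintro ⟨l, h1, h2⟩
      rw [hf chi l h1, hf psi l h2]
    · intro h
      obtain ⟨l, h1⟩ := orb_exists htheta chi.2
      obtain ⟨l', h2⟩ := orb_exists htheta psi.2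
      rw [hf chi l h1, hf psi l' h2] at h
      have h3 : l' ∈ orb l := Quotient.exact h
      rw [orbSum_congr h3] at h2
      exact ⟨l, h1, h2⟩
  refine Nat.card_congr (Equiv.ofBijective (Quotient.lift f fun a b h => (hf' a b).mp h) ⟨?_, ?_⟩)
  · intro a b
    obtain ⟨a, rfl⟩ := Quotient.exists_rep a
    obtain ⟨b, rfl⟩ := Quotient.exists_rep b
    intro h
    exact Quotient.sound ((hf' a b).mpr h)
  · intro q
    obtain ⟨l, rfl⟩ := Quotient.exists_rep q
    obtain ⟨chi, h1, h2⟩ := char_exists (theta := theta) l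
    exact ⟨⟦⟨chi, h1⟩⟧, hf ⟨chi, h1⟩ l h2⟩

end Card

/-- Andre's supercharacter theory -/
def andre (n : ℕ) {F : Type} [Field F] [Finite F] {theta : AddChar F ℂ}
    (htheta : ∃ x, theta x ≠ 1) : SuperTheory (U n F) where
  chars := chSetoid n htheta
  classes := clSetoid n F
  card_eq := by
    rw [card_ch]
    exact le_antisymm (card_le_1 htheta) (card_le_2 htheta)
  one_class := by
    rintro g ⟨u, v, h⟩
    have h1 := congrArg (fun z => act u⁻¹ v⁻¹ z) h
    simp only [act_act, inv_mul_cancel, mul_inv_cancel, act_one, sub1_one, map_zero] at h1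
    exact sub1_eq_zero.mp h1.symm
  const := by
    intro chi g h H
    obtain ⟨l, hl⟩ := orb_exists htheta chi.2
    rw [sigma_andre htheta chi l hl]
    exact orbSum_superclass l H

theorem andre_isAndre (htheta : ∃ x, theta x ≠ 1) : IsAndre theta (andre n htheta) := by
  refine ⟨fun g h => Iff.rfl, ?_, ?_⟩
  · intro chi
    obtain ⟨l, hl⟩ := orb_exists htheta chi.2
    refine ⟨l, 1, one_pos, fun g => ?_⟩
    have := sigma_andre htheta chi l hl
    rw [show (andre n htheta).chars = chSetoid n htheta from rfl, this]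
    simp
  · intro l
    obtain ⟨chi, h1, h2⟩ := char_exists (theta := theta) l
    refine ⟨⟨chi, h1⟩, 1, one_pos, fun g => ?_⟩
    have := sigma_andre htheta ⟨chi, h1⟩ l h2
    rw [show (andre n htheta).chars = chSetoid n htheta from rfl, this]
    simp

end Pool.Agent.W368.SC
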