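import Mathlib
import Pool.Agent.W368.SC.Andre

/-!
Single-box supercharacters are irreducible and are blocks of Andre's theory.
-/

open scoped BigOperators Classical

noncomputable section

namespace Pool.Agent.W368.SC

open Pool.Agent.Helper884.IC (B Irr mem_Irr IsClass B_irr expand)

variable {n : ℕ} {F : Type} [Field F]

lemma entry_eq (u v : U n F) (x : N n F) (i j : Fin n) :
    (act u v x).1 i j = ∑ l, ∑ k, u.1.1 i k * x.1 k l * v.1.1 l j := by
  rw [act_val, Matrix.mul_apply]
  refine Finset.sum_congr rfl fun l _ => ?_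
  rw [Matrix.mul_apply, Finset.sum_mul]

lemma entry_congr {u v u' v' : U n F} {i j : Fin n}
    (hu : ∀ k, k < j → u.1.1 i k = u'.1.1 i k) (hv : ∀ l, i < l → v.1.1 l j = v'.1.1 l j)
    (x : N n F) : (act u v x).1 i j = (act u' v' x).1 i j := by
  rw [entry_eq, entry_eq]
  refine Finset.sum_congr rfl fun l _ => Finset.sum_congr rfl fun k _ => ?_
  rcases le_or_gt l k with h1 | h1
  · rw [x.2 k l h1]
    simp
  · rcases lt_or_ge j l with h2 | h2
    · rw [(v.2 l j).1 h2, (v'.2 l j).1 h2]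
      simp
    · rw [hu k (lt_of_lt_of_le h1 h2)]
      rcases lt_or_ge k i with h3 | h3
      · rw [(u'.2 i k).1 h3]
        simp
      · rw [hv l (lt_of_le_of_lt h3 h1)]

/-- the two-sided orbit of a single box is a single orbit under conjugation -/
lemma box_conj {i j : Fin n} (hij : i < j) (a : F) {m : Module.Dual F (N n F)}
    (hm : m ∈ orb (box i j a)) : ∃ w : U n F, m = dAct w w⁻¹ (box i j a) := by
  obtain ⟨u, v, rfl⟩ := hm
  set S : Matrix (Fin n) (Fin n) F :=
    Matrix.of fun p q => if p = i ∧ i < q ∧ q < j then u.1.1 p q else 0 with hS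
  set R : Matrix (Fin n) (Fin n) F :=
    Matrix.of fun p q => if q = j ∧ i < p ∧ p < j then v.1.1 p q else 0 with hR
  have hSa : ∀ p q, S p q = if p = i ∧ i < q ∧ q < j then u.1.1 p q else 0 := fun p q => rfl
  have hRa : ∀ p q, R p q = if q = j ∧ i < p ∧ p < j then v.1.1 p q else 0 := fun p q => rfl
  have hSS : S * S = 0 := by
    ext p q
    rw [Matrix.mul_apply, Matrix.zero_apply]
    refine Finset.sum_eq_zero fun k _ => ?_
    rw [hSa p k, hSa k q]
    by_cases h1 : p = i ∧ i < k ∧ k < j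
    · rw [if_neg (fun h2 : k = i ∧ i < q ∧ q < j => absurd h2.1 h1.2.1.ne'), mul_zero]
    · rw [if_neg h1, zero_mul]
  have hRR : R * R = 0 := by
    ext p q
    rw [Matrix.mul_apply, Matrix.zero_apply]
    refine Finset.sum_eq_zero fun k _ => ?_
    rw [hRa p k, hRa k q]
    by_cases h1 : q = j ∧ i < k ∧ k < j
    · rw [if_neg (fun h2 : k = j ∧ i < p ∧ p < j => absurd h2.1 h1.2.2.ne), zero_mul]
    · rw [if_neg h1, mul_zero]
  have hRS : R * S = 0 := by
    ext p q
    rw [Matrix.mul_apply, Matrix.zero_apply]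
    refine Finset.sum_eq_zero fun k _ => ?_
    rw [hRa p k, hSa k q]
    by_cases h1 : k = j ∧ i < p ∧ p < j
    · rw [if_neg (fun h2 : k = i ∧ i < q ∧ q < j => hij.ne' (h1.1.symm.trans h2.1)), mul_zero]
    · rw [if_neg h1, zero_mul]
  have hSU : IsUT (1 + S) := by
    intro p q
    refine ⟨fun h => ?_, ?_⟩
    · rw [Matrix.add_apply, Matrix.one_apply, if_neg h.ne', hSa, if_neg, add_zero]
      rintro ⟨rfl, h2, _⟩
      exact lt_asymm h h2
    · rw [Matrix.add_apply, Matrix.one_apply, if_pos rfl, hSa, if_neg, add_zero]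
      rintro ⟨rfl, h2, _⟩
      exact lt_irrefl _ h2
  have hRU : IsUT (1 + R) := by
    intro p q
    refine ⟨fun h => ?_, ?_⟩
    · rw [Matrix.add_apply, Matrix.one_apply, if_neg h.ne', hRa, if_neg, add_zero]
      rintro ⟨rfl, _, h2⟩
      exact lt_asymm h h2
    · rw [Matrix.add_apply, Matrix.one_apply, if_pos rfl, hRa, if_neg, add_zero]
      rintro ⟨rfl, _, h2⟩
      exact lt_irrefl _ h2
  set P : U n F := mkU (1 + S) hSU with hP
  set Q : U n F := mkU (1 + R) hRU with hQ
  have hPv : P.1.1 = 1 + S := rfl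
  have hQv : Q.1.1 = 1 + R := rfl
  have hPi : (P⁻¹).1.1 = 1 - S := by
    have h1 : (P⁻¹).1.1 * ((1 + S) * (1 - S)) = 1 - S := by
      rw [← mul_assoc, ← hPv, inv_mul_val, one_mul]
    have h2 : (1 + S) * (1 - S) = 1 := by
      rw [mul_sub, mul_one, add_mul, one_mul, hSS, add_zero, add_sub_cancel_right]
    rwa [h2, mul_one] at h1
  have hQi : (Q⁻¹).1.1 = 1 - R := by
    have h1 : (Q⁻¹).1.1 * ((1 + R) * (1 - R)) = 1 - R := by
      rw [← mul_assoc, ← hQv, inv_mul_val, one_mul]
    have h2 : (1 + R) * (1 - R) = 1 := by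
      rw [mul_sub, mul_one, add_mul, one_mul, hRR, add_zero, add_sub_cancel_right]
    rwa [h2, mul_one] at h1
  refine ⟨P * Q⁻¹, ?_⟩
  ext x
  rw [dAct_apply]
  show a * (act u v x).1 i j = a * (act (P * Q⁻¹) (P * Q⁻¹)⁻¹ x).1 i j
  congr 1
  refine entry_congr ?_ ?_ x
  · intro k hk
    rw [mul_val, hPv, hQi, mul_sub, mul_one, add_mul, one_mul]
    simp only [Matrix.add_apply, Matrix.sub_apply]
    have h1 : R i k = 0 := by
      rw [hRa, if_neg]
      rintro ⟨h, _⟩
      exact hk.ne h
    have h2 : (S * R) i k = 0 := by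
      rw [Matrix.mul_apply]
      refine Finset.sum_eq_zero fun p _ => ?_
      rw [hRa p k, if_neg, mul_zero]
      rintro ⟨h, _⟩
      exact hk.ne h
    rw [h1, h2, hSa, Matrix.one_apply]
    rcases lt_trichotomy k i with h | h | h
    · rw [(u.2 i k).1 h, if_neg h.ne', if_neg]
      · simp
      · rintro ⟨_, h', _⟩
        exact lt_asymm h h'
    · subst h
      rw [(u.2 k k).2, if_pos rfl, if_neg]
      · simp
      · rintro ⟨_, h', _⟩
        exact lt_irrefl _ h'
    · rw [if_neg h.ne, if_pos ⟨rfl, h, hk⟩]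
      simp
  · intro l hl
    have h0 : (P * Q⁻¹)⁻¹ = Q * P⁻¹ := by group
    rw [h0, mul_val, hQv, hPi, mul_sub, mul_one, add_mul, one_mul, hRS, add_zero]
    simp only [Matrix.add_apply, Matrix.sub_apply]
    have h1 : S l j = 0 := by
      rw [hSa, if_neg]
      rintro ⟨_, _, h⟩
      exact lt_irrefl _ h
    rw [h1, hRa, Matrix.one_apply]
    rcases lt_trichotomy l j with h | h | h
    · rw [if_neg h.ne, if_pos ⟨rfl, hl, h⟩]
      simp
    · subst h
      rw [(v.2 l l).2, if_pos rfl, if_neg]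
      · simp
      · rintro ⟨_, _, h'⟩
        exact lt_irrefl _ h'
    · rw [(v.2 l j).1 h, if_neg h.ne', if_neg]
      · simp
      · rintro ⟨_, _, h'⟩
        exact lt_asymm h h'

variable [Finite F] {theta : AddChar F ℂ} (htheta : ∃ x, theta x ≠ 1)

include htheta

lemma irr_of_box {i j : Fin n} (hij : i < j) (a : F) {chi : U n F → ℂ} (hchi : IsIrrChar chi)
    (h : B (orbSum theta (box i j a)) chi ≠ 0) :
    ∃ c : ℝ, 0 < c ∧ ∀ g, chi g = (c : ℂ) * orbSum theta (box i j a) g := by
  set l : Module.Dual F (N n F) := box i j a with hl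
  have hU : (Nat.card (U n F) : ℂ) ≠ 0 := cardG_ne
  have h1 : B (orbSum theta l) chi = chi 1 := by
    rcases B_orbSum htheta hchi l with h' | h'
    · exact absurd h' h
    · exact h'
  set s : ℂ := ∑ x : U n F, chi x * theta (-(l (sub1 x))) with hs
  have h2 : ∀ m ∈ orb l, ∑ x : U n F, chi x * theta (-(m (sub1 x))) = s := by
    intro m hm
    obtain ⟨w, rfl⟩ := box_conj hij a hm
    rw [hs]
    refine Fintype.sum_equiv (MulAut.conj w).toEquiv _ _ ?_
    intro x
    have e1 : (MulAut.conj w).toEquiv x = w * x * w⁻¹ := by simp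
    rw [e1, hchi.isClass x w, sub1_conj]
    rfl
  have h3 : ∀ g, (Nat.card (U n F) : ℂ) * chi g = s * orbSum theta l g := by
    intro g
    have h4 := conv_irr (orbSum_isClass (theta := theta) l) hchi g
    rw [h1, mul_div_assoc, div_self hchi.one_ne, mul_one] at h4
    rw [← h4, conv_orbSum, orbSum_eq, Finset.mul_sum]
    refine Finset.sum_congr rfl fun m _ => ?_
    split_ifs with h5
    · rw [h2 m h5]
    · rw [mul_zero]
  obtain ⟨d, hd, hd1⟩ := hchi.deg
  have hO : (Nat.card (orb l) : ℂ) ≠ 0 := by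
    exact_mod_cast (card_orb_pos l).ne'
  have h5 : s = (Nat.card (U n F) : ℂ) * d / (Nat.card (orb l) : ℂ) := by
    have := h3 1
    rw [orbSum_one, hd1] at this
    rw [eq_div_iff hO, this]
  refine ⟨(d : ℝ) / (Nat.card (orb l) : ℝ), ?_, fun g => ?_⟩
  · have : (0 : ℝ) < (Nat.card (orb l) : ℝ) := by exact_mod_cast card_orb_pos l
    positivity
  · have h6 := h3 g
    rw [h5] at h6
    apply mul_left_cancel₀ hU
    rw [h6]
    push_cast
    ring

theorem andre_contains : ContainsBoxes theta (andre n htheta) := by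
  intro i j a hij _
  obtain ⟨chi, h1, h2⟩ := char_exists (theta := theta) (box i j a)
  refine ⟨⟨chi, h1⟩, irr_of_box htheta hij a h1 h2, ?_⟩
  rintro psi ⟨l, h3, h4⟩
  have h5 := orb_unique htheta h1 h2 h3
  rw [orbSum_congr h5] at h4
  obtain ⟨c, hc, h6⟩ := irr_of_box htheta hij a h1 h2
  by_contra hne
  have h7 : B chi psi.1 = 0 := by
    rw [B_irr h1 psi.2, if_neg]
    intro h
    exact hne (Subtype.ext h.symm)
  have h8 : chi = (c : ℂ) • orbSum theta (box i j a) := by
    funext g
    exact h6 g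
  rw [h8, Pool.Agent.Helper884.IC.B_smul_left] at h7
  rcases mul_eq_zero.mp h7 with h9 | h9
  · exact hc.ne' (by exact_mod_cast h9)
  · exact h4 h9

end Pool.Agent.W368.SC
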