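import Mathlib
import Pool.Agent.W368.SC.Box

/-!
Every supercharacter theory containing the single-box characters refines Andre's theory.
-/

open scoped BigOperators Classical

noncomputable section

namespace Pool.Agent.W368.SC

open Pool.Agent.Helper884.IC (B Irr mem_Irr IsClass B_irr expand)

variable {n : ℕ} {F : Type} [Field F] [Finite F] {theta : AddChar F ℂ}

/-- the sum over the group `U × U` instead of over the orbit -/
def gSum (theta : AddChar F ℂ) (l : Module.Dual F (N n F)) (g : U n F) : ℂ :=
  ∑ u : U n F, ∑ v : U n F, theta (l (act u v (sub1 g)))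

lemma gSum_dAct (l : Module.Dual F (N n F)) (a b : U n F) :
    gSum theta (dAct a b l) = gSum theta l := by
  funext g
  unfold gSum
  simp only [dAct_apply, act_act]
  refine Fintype.sum_equiv (Equiv.mulLeft a) _ _ fun u => ?_
  refine Fintype.sum_equiv (Equiv.mulRight b) _ _ fun v => ?_
  rfl

lemma gSum_orb {l m : Module.Dual F (N n F)} (h : m ∈ orb l) :
    gSum theta m = gSum theta l := by
  obtain ⟨a, b, rfl⟩ := h
  exact gSum_dAct l a b

lemma gSum_orbSum (l : Module.Dual F (N n F)) (g : U n F) :
    (Nat.card (U n F) : ℂ) ^ 2 * orbSum theta l g = (Nat.card (orb l) : ℂ) * gSum theta l g := by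
  have h1 : ∑ u : U n F, ∑ v : U n F, (∑ m : Module.Dual F (N n F),
      if m ∈ orb l then theta (m (act u v (sub1 g))) else 0)
      = (Nat.card (U n F) : ℂ) ^ 2 * orbSum theta l g := by
    simp_rw [sum_orb_reindex]
    rw [orbSum_eq]
    simp only [Finset.sum_const, Finset.card_univ, nsmul_eq_mul, Nat.card_eq_fintype_card]
    ring
  have h2 : ∑ u : U n F, ∑ v : U n F, (∑ m : Module.Dual F (N n F),
      if m ∈ orb l then theta (m (act u v (sub1 g))) else 0)
      = ∑ m : Module.Dual F (N n F), if m ∈ orb l then gSum theta l g else 0 := by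
    have h3 : ∀ u : U n F, ∑ v : U n F, (∑ m : Module.Dual F (N n F),
      if m ∈ orb l then theta (m (act u v (sub1 g))) else 0)
      = ∑ m : Module.Dual F (N n F), ∑ v : U n F,
        if m ∈ orb l then theta (m (act u v (sub1 g))) else 0 := fun u => Finset.sum_comm
    simp_rw [h3]
    rw [Finset.sum_comm]
    refine Finset.sum_congr rfl fun m _ => ?_
    split_ifs with h
    · rw [← gSum_orb h]
      rfl
    · simp
  rw [← h1, h2, ← Finset.sum_filter, Finset.sum_const, nsmul_eq_mul]
  congr 2
  rw [Nat.card_eq_fintype_card, Fintype.card_subtype]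

/-- the functional with coefficients `c` -/
def fn (c : Matrix (Fin n) (Fin n) F) : Module.Dual F (N n F) where
  toFun x := ∑ k, ∑ l, c k l * x.1 k l
  map_add' x y := by
    show ∑ k, ∑ l, c k l * (x.1 + y.1) k l = _
    simp only [Matrix.add_apply, mul_add, Finset.sum_add_distrib]
  map_smul' a x := by
    show ∑ k, ∑ l, c k l * (a • x.1) k l = _
    simp only [Matrix.smul_apply, smul_eq_mul, RingHom.id_apply, Finset.mul_sum]
    refine Finset.sum_congr rfl fun k _ => Finset.sum_congr rfl fun l _ => ?_
    ring

omit [Finite F] in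
lemma fn_apply (c : Matrix (Fin n) (Fin n) F) (x : N n F) :
    fn c x = ∑ k, ∑ l, c k l * x.1 k l := rfl

omit [Finite F] in
lemma fn_congr {c c' : Matrix (Fin n) (Fin n) F} (h : ∀ k l, k < l → c k l = c' k l) :
    fn c = fn c' := by
  ext x
  rw [fn_apply, fn_apply]
  refine Finset.sum_congr rfl fun k _ => Finset.sum_congr rfl fun l _ => ?_
  rcases lt_or_ge k l with h1 | h1
  · rw [h k l h1]
  · rw [x.2 k l h1, mul_zero, mul_zero]

omit [Finite F] in
lemma fn_surj (l : Module.Dual F (N n F)) : ∃ c, l = fn c := by
  obtain ⟨L, hL⟩ := LinearMap.exists_extend l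
  refine ⟨Matrix.of fun i j => L (Matrix.single i j 1), ?_⟩
  ext x
  rw [fn_apply]
  have h1 : l x = L x.1 := by
    rw [← hL]
    rfl
  rw [h1]
  conv_lhs => rw [Matrix.matrix_eq_sum_single x.1]
  rw [map_sum]
  refine Finset.sum_congr rfl fun k _ => ?_
  rw [map_sum]
  refine Finset.sum_congr rfl fun j _ => ?_
  have h2 : Matrix.single k j (x.1 k j) = (x.1 k j) • Matrix.single k j (1 : F) := by
    rw [Matrix.smul_single, smul_eq_mul, mul_one]
  rw [h2, map_smul, smul_eq_mul, mul_comm]
  rfl

omit [Finite F] in
lemma fn_dAct (c : Matrix (Fin n) (Fin n) F) (u v : U n F) :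
    dAct u v (fn c) = fn (u.1.1.transpose * c * v.1.1.transpose) := by
  ext x
  rw [dAct_apply, fn_apply, fn_apply]
  -- both are traces
  have h1 : ∀ (c y : Matrix (Fin n) (Fin n) F), ∑ k, ∑ l, c k l * y k l
      = Matrix.trace (c.transpose * y) := by
    intro c y
    rw [Matrix.trace]
    simp only [Matrix.diag_apply, Matrix.mul_apply, Matrix.transpose_apply]
    rw [Finset.sum_comm]
  rw [h1, h1, act_val]
  simp only [Matrix.transpose_mul, Matrix.transpose_transpose]
  rw [← Matrix.mul_assoc, Matrix.trace_mul_comm]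
  simp only [Matrix.mul_assoc]

/-- replacing row `i` of `u` by row `i` of `u'` -/
def rowSwap (i : Fin n) (u u' : U n F) : U n F :=
  mkU (Matrix.of fun p q => if p = i then u'.1.1 p q else u.1.1 p q) (by
    intro p q
    refine ⟨fun h => ?_, ?_⟩
    · rw [Matrix.of_apply]
      split_ifs
      · exact (u'.2 p q).1 h
      · exact (u.2 p q).1 h
    · rw [Matrix.of_apply]
      split_ifs
      · exact (u'.2 p q).2
      · exact (u.2 p q).2)

/-- replacing column `j` of `v` by column `j` of `v'` -/
def colSwap (j : Fin n) (v v' : U n F) : U n F :=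
  mkU (Matrix.of fun p q => if q = j then v'.1.1 p q else v.1.1 p q) (by
    intro p q
    refine ⟨fun h => ?_, ?_⟩
    · rw [Matrix.of_apply]
      split_ifs
      · exact (v'.2 p q).1 h
      · exact (v.2 p q).1 h
    · rw [Matrix.of_apply]
      split_ifs
      · exact (v'.2 p p).2
      · exact (v.2 p p).2)

omit [Finite F] in
lemma rowSwap_val (i : Fin n) (u u' : U n F) (p q : Fin n) :
    (rowSwap i u u').1.1 p q = if p = i then u'.1.1 p q else u.1.1 p q := rfl

omit [Finite F] in
lemma colSwap_val (j : Fin n) (v v' : U n F) (p q : Fin n) :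
    (colSwap j v v').1.1 p q = if q = j then v'.1.1 p q else v.1.1 p q := rfl

/-- the swap of rows as a permutation of `U × U` -/
def rowPerm (i : Fin n) : (U n F × U n F) ≃ (U n F × U n F) where
  toFun p := (rowSwap i p.1 p.2, rowSwap i p.2 p.1)
  invFun p := (rowSwap i p.1 p.2, rowSwap i p.2 p.1)
  left_inv := by
    rintro ⟨u, u'⟩
    refine Prod.ext (U_ext ?_) (U_ext ?_) <;>
    · ext p q
      simp only [rowSwap_val]
      split_ifs <;> rfl
  right_inv := by
    rintro ⟨u, u'⟩
    refine Prod.ext (U_ext ?_) (U_ext ?_) <;>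
    · ext p q
      simp only [rowSwap_val]
      split_ifs <;> rfl

/-- the swap of columns as a permutation of `U × U` -/
def colPerm (j : Fin n) : (U n F × U n F) ≃ (U n F × U n F) where
  toFun p := (colSwap j p.1 p.2, colSwap j p.2 p.1)
  invFun p := (colSwap j p.1 p.2, colSwap j p.2 p.1)
  left_inv := by
    rintro ⟨u, u'⟩
    refine Prod.ext (U_ext ?_) (U_ext ?_) <;>
    · ext p q
      simp only [colSwap_val]
      split_ifs <;> rfl
  right_inv := by
    rintro ⟨u, u'⟩
    refine Prod.ext (U_ext ?_) (U_ext ?_) <;>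
    · ext p q
      simp only [colSwap_val]
      split_ifs <;> rfl

lemma prod_sums {α β : Type} [Fintype α] [Fintype β] (A D : α → β → ℂ) :
    (∑ u, ∑ v, A u v) * (∑ u, ∑ v, D u v)
      = ∑ p : α × α, ∑ q : β × β, A p.1 q.1 * D p.2 q.2 := by
  rw [Finset.sum_mul_sum, Fintype.sum_prod_type]
  refine Finset.sum_congr rfl fun u _ => Finset.sum_congr rfl fun u' _ => ?_
  rw [Finset.sum_mul_sum, Fintype.sum_prod_type]

lemma const_sums {α β : Type} [Fintype α] [Fintype β] (A : α → β → ℂ) :
    ((Fintype.card α : ℂ) * (Fintype.card β : ℂ)) * (∑ u, ∑ v, A u v)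
      = ∑ p : α × α, ∑ q : β × β, A p.1 q.1 := by
  have h := prod_sums A (fun _ _ => 1)
  simp only [Finset.sum_const, Finset.card_univ, nsmul_eq_mul, mul_one] at h
  rw [← h]
  ring

/-- Product formula: if row `i` and column `j` of `c` vanish, the sum for `c + a E_ij` is the
product of the sums for `c` and for the single box. -/
lemma gSum_mul {i j : Fin n} (a : F) (c : Matrix (Fin n) (Fin n) F)
    (hr : ∀ l, c i l = 0) (hc : ∀ k, c k j = 0) (g : U n F) :
    (Nat.card (U n F) : ℂ) ^ 2 * gSum theta (fn c + box i j a) g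
      = gSum theta (fn c) g * gSum theta (box i j a) g := by
  -- key identity for the entries
  have key : ∀ (u u' v v' : U n F) (x : N n F),
      (fn c + box i j a) (act (rowSwap i u u') (colSwap j v v') x)
        = fn c (act u v x) + box i j a (act u' v' x) := by
    intro u u' v v' x
    rw [LinearMap.add_apply]
    congr 1
    · rw [fn_apply, fn_apply]
      refine Finset.sum_congr rfl fun k _ => Finset.sum_congr rfl fun l _ => ?_
      by_cases hk : k = i
      · rw [hk, hr l, zero_mul, zero_mul]
      by_cases hl : l = j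
      · rw [hl, hc k, zero_mul, zero_mul]
      congr 1
      rw [entry_eq, entry_eq]
      refine Finset.sum_congr rfl fun q _ => Finset.sum_congr rfl fun p _ => ?_
      rw [rowSwap_val, colSwap_val, if_neg hk, if_neg hl]
    · show a * _ = a * _
      congr 1
      rw [entry_eq, entry_eq]
      refine Finset.sum_congr rfl fun q _ => Finset.sum_congr rfl fun p _ => ?_
      rw [rowSwap_val, colSwap_val, if_pos rfl, if_pos rfl]
  have e1 : gSum theta (fn c) g * gSum theta (box i j a) g
      = ∑ p : U n F × U n F, ∑ q : U n F × U n F,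
        theta (fn c (act p.1 q.1 (sub1 g)) + box i j a (act p.2 q.2 (sub1 g))) := by
    unfold gSum
    rw [prod_sums]
    refine Finset.sum_congr rfl fun p _ => Finset.sum_congr rfl fun q _ => ?_
    rw [AddChar.map_add_eq_mul]
  have e2 : (Nat.card (U n F) : ℂ) ^ 2 * gSum theta (fn c + box i j a) g
      = ∑ p : U n F × U n F, ∑ q : U n F × U n F,
        theta ((fn c + box i j a) (act p.1 q.1 (sub1 g))) := by
    have := const_sums (fun u v : U n F => theta ((fn c + box i j a) (act u v (sub1 g))))
    rw [Nat.card_eq_fintype_card, pow_two]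
    exact this
  rw [e1, e2]
  symm
  refine Fintype.sum_equiv (rowPerm i) _ _ fun p => ?_
  refine Fintype.sum_equiv (colPerm j) _ _ fun q => ?_
  rw [← key]
  rfl

omit [Finite F] in
lemma fn_add (c c' : Matrix (Fin n) (Fin n) F) : fn (c + c') = fn c + fn c' := by
  ext x
  rw [LinearMap.add_apply, fn_apply, fn_apply, fn_apply]
  simp only [Matrix.add_apply, add_mul, Finset.sum_add_distrib]

omit [Finite F] in
lemma fn_single (i j : Fin n) (a : F) : fn (Matrix.single i j a) = box i j a := by
  ext x
  rw [fn_apply]
  show _ = a * x.1 i j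
  rw [Finset.sum_eq_single i, Finset.sum_eq_single j]
  · rw [Matrix.single_apply_same]
  · intro l _ hl
    rw [Matrix.single_apply_of_ne _ _ _ _ _ (fun h => hl h.2.symm), zero_mul]
  · simp
  · intro k _ hk
    refine Finset.sum_eq_zero fun l _ => ?_
    rw [Matrix.single_apply_of_ne _ _ _ _ _ (fun h => hk h.1.symm), zero_mul]
  · simp

omit [Finite F] in
/-- one step of the elimination -/
lemma step (c : Matrix (Fin n) (Fin n) F) (m j : Fin n) (hmj : m < j) (ha : c m j ≠ 0)
    (hrows : ∀ k l, k < m → k < l → c k l = 0) (hmax : ∀ l, j < l → c m l = 0) :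
    ∃ (u v : U n F) (c' : Matrix (Fin n) (Fin n) F), dAct u v (fn c) = fn c' + box m j (c m j) ∧
      (∀ k l, k ≤ m → c' k l = 0) ∧ (∀ k, c' k j = 0) := by
  set a := c m j with ha'
  set T1 : Matrix (Fin n) (Fin n) F :=
    Matrix.of fun p q => if q = j ∧ m < p ∧ p < j then -(c m p) / a else 0 with hT1
  set S1 : Matrix (Fin n) (Fin n) F :=
    Matrix.of fun p q => if p = m ∧ m < q ∧ q < j then -(c q j) / a else 0 with hS1
  have hTa : ∀ p q, T1 p q = if q = j ∧ m < p ∧ p < j then -(c m p) / a else 0 := fun p q => rfl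
  have hSa : ∀ p q, S1 p q = if p = m ∧ m < q ∧ q < j then -(c q j) / a else 0 := fun p q => rfl
  have hSU : IsUT (1 + S1) := by
    intro p q
    refine ⟨fun h => ?_, ?_⟩
    · rw [Matrix.add_apply, Matrix.one_apply, if_neg h.ne', hSa, if_neg, add_zero]
      rintro ⟨rfl, h2, _⟩
      exact lt_asymm h h2
    · rw [Matrix.add_apply, Matrix.one_apply, if_pos rfl, hSa, if_neg, add_zero]
      rintro ⟨rfl, h2, _⟩
      exact lt_irrefl _ h2
  have hTU : IsUT (1 + T1) := by
    intro p q
    refine ⟨fun h => ?_, ?_⟩
    · rw [Matrix.add_apply, Matrix.one_apply, if_neg h.ne', hTa, if_neg, add_zero]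
      rintro ⟨rfl, _, h2⟩
      exact lt_asymm h h2
    · rw [Matrix.add_apply, Matrix.one_apply, if_pos rfl, hTa, if_neg, add_zero]
      rintro ⟨rfl, _, h2⟩
      exact lt_irrefl _ h2
  have hTt : ∀ k l, (c * T1.transpose) k l = c k j * T1 l j := by
    intro k l
    rw [Matrix.mul_apply, Finset.sum_eq_single j]
    · rfl
    · intro q _ hq
      rw [Matrix.transpose_apply, hTa, if_neg (fun h => hq h.1), mul_zero]
    · simp
  set c1 := c + c * T1.transpose with hc1
  have hc1a : ∀ k l, c1 k l = c k l + c k j * T1 l j := by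
    intro k l
    rw [hc1, Matrix.add_apply, hTt]
  have hSt : ∀ k l, (S1.transpose * c1) k l = S1 m k * c1 m l := by
    intro k l
    rw [Matrix.mul_apply, Finset.sum_eq_single m]
    · rfl
    · intro q _ hq
      rw [Matrix.transpose_apply, hSa, if_neg (fun h => hq h.1), zero_mul]
    · simp
  set c2 := c1 + S1.transpose * c1 with hc2
  have hc2a : ∀ k l, c2 k l = c1 k l + S1 m k * c1 m l := by
    intro k l
    rw [hc2, Matrix.add_apply, hSt]
  have hTjj : T1 j j = 0 := by
    rw [hTa, if_neg]
    rintro ⟨_, _, h⟩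
    exact lt_irrefl _ h
  have hc1mj : c1 m j = a := by
    rw [hc1a, hTjj, mul_zero, add_zero]
  refine ⟨mkU (1 + S1) hSU, mkU (1 + T1) hTU,
    Matrix.of fun k l => if m < k ∧ l ≠ j then c2 k l else 0, ?_, ?_, ?_⟩
  · rw [fn_dAct]
    have e1 : (mkU (1 + S1) hSU).1.1.transpose * c * (mkU (1 + T1) hTU).1.1.transpose = c2 := by
      show (1 + S1).transpose * c * (1 + T1).transpose = c2
      rw [Matrix.transpose_add, Matrix.transpose_add, Matrix.transpose_one, mul_assoc,
        mul_add, mul_one, ← hc1, add_mul, one_mul]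
    rw [e1, ← fn_single, ← fn_add]
    apply fn_congr
    intro k l hkl
    rw [Matrix.add_apply, Matrix.of_apply, hc2a]
    rcases lt_trichotomy k m with h | h | h
    · rw [if_neg (fun h' => lt_asymm h h'.1),
        Matrix.single_apply_of_ne _ _ _ _ _ (fun h' => h.ne h'.1.symm), hc1a, hSa,
        if_neg (fun h' => lt_asymm h h'.2.1), hrows k l h hkl, hrows k j h (h.trans hmj)]
      simp
    · subst h
      rw [if_neg (fun h' => lt_irrefl _ h'.1), hSa k k, if_neg (fun h' => lt_irrefl _ h'.2.1),
        zero_mul, add_zero, zero_add, hc1a]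
      rcases lt_trichotomy l j with h' | h' | h'
      · rw [Matrix.single_apply_of_ne _ _ _ _ _ (fun h'' => h'.ne h''.2.symm), hTa,
          if_pos ⟨rfl, hkl, h'⟩, ← ha']
        field_simp
        ring
      · subst h'
        rw [Matrix.single_apply_same, hTjj, mul_zero, add_zero]
      · rw [Matrix.single_apply_of_ne _ _ _ _ _ (fun h'' => h'.ne h''.2), hTa,
          if_neg (fun h'' => lt_asymm h' h''.2.2), mul_zero, add_zero, hmax l h']
    · rw [Matrix.single_apply_of_ne _ _ _ _ _ (fun h' => h.ne h'.1), add_zero]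
      by_cases hl : l = j
      · subst hl
        rw [if_neg (fun h' => h'.2 rfl), hc1mj, hc1a, hTjj, hSa, if_pos ⟨rfl, h, hkl⟩]
        field_simp
        ring
      · rw [if_pos ⟨h, hl⟩]
  · intro k l hk
    rw [Matrix.of_apply, if_neg]
    rintro ⟨h, _⟩
    exact absurd h (not_lt.mpr hk)
  · intro k
    rw [Matrix.of_apply, if_neg]
    rintro ⟨_, h⟩
    exact h rfl

/-- If the single-box sums are constant on the classes of an equivalence relation, so are all. -/
lemma gSum_const (r : U n F → U n F → Prop)
    (hbox : ∀ (i j : Fin n) (a : F), i < j → a ≠ 0 → ∀ g h, r g h →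
      gSum theta (box i j a) g = gSum theta (box i j a) h) :
    ∀ (d : ℕ) (c : Matrix (Fin n) (Fin n) F),
      (∀ k l : Fin n, k.val + d < n → k < l → c k l = 0) →
      ∀ g h, r g h → gSum theta (fn c) g = gSum theta (fn c) h := by
  intro d
  induction d with
  | zero =>
    intro c hc g h _
    have h0 : fn c = 0 := by
      have h1 : fn c = fn 0 := fn_congr (fun k l hkl => by
        rw [hc k l (by simp) hkl]
        rfl)
      rw [h1]
      ext x
      rw [fn_apply]
      simp
    rw [h0]
    unfold gSum
    simp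
  | succ d ih =>
    intro c hc g h hr
    by_cases hd : d < n
    · let m : Fin n := ⟨n - d - 1, by omega⟩
      have hmval : m.val = n - d - 1 := rfl
      have hrows : ∀ k l, k < m → k < l → c k l = 0 := by
        intro k l hk hkl
        refine hc k l ?_ hkl
        have : k.val < m.val := hk
        omega
      by_cases hz : ∀ l, m < l → c m l = 0
      · refine ih c ?_ g h hr
        intro k l hk hkl
        rcases lt_or_ge k m with h1 | h1
        · exact hrows k l h1 hkl
        · have h2 : k = m := by
            apply le_antisymm _ h1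
            show k.val ≤ m.val
            omega
          subst h2
          exact hz l hkl
      · push Not at hz
        obtain ⟨j0, hj0, hj0'⟩ := hz
        obtain ⟨j, hj, hjmax⟩ := Finset.exists_max_image
          (Finset.univ.filter (fun l : Fin n => m < l ∧ c m l ≠ 0)) (fun l => l)
          ⟨j0, by simp [hj0, hj0']⟩
        simp only [Finset.mem_filter, Finset.mem_univ, true_and] at hj hjmax
        obtain ⟨u, v, c', h1, h2, h3⟩ := step c m j hj.1 hj.2 hrows (by
          intro l hl
          by_contra hcon
          exact absurd hl (not_lt.mpr (hjmax l ⟨hj.1.trans hl, hcon⟩)))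
        have h4 : ∀ g, (Nat.card (U n F) : ℂ) ^ 2 * gSum theta (fn c) g
            = gSum theta (fn c') g * gSum theta (box m j (c m j)) g := by
          intro g
          rw [← gSum_mul _ c' (fun l => h2 m l le_rfl) h3, ← h1, gSum_dAct]
        have hU : (Nat.card (U n F) : ℂ) ^ 2 ≠ 0 := pow_ne_zero _ cardG_ne
        apply mul_left_cancel₀ hU
        rw [h4, h4, hbox m j _ hj.1 hj.2 g h hr, ih c' ?_ g h hr]
        intro k l hk _
        apply h2
        show k.val ≤ m.val
        omega
    · refine ih c ?_ g h hr
      intro k l hk _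
      omega

/-- the sums separate Andre's superclasses -/
lemma separate (htheta : ∃ x, theta x ≠ 1) {g h : U n F}
    (H : ∀ l : Module.Dual F (N n F), gSum theta l g = gSum theta l h) : SameSuperclass g h := by
  have h1 : ∀ y : U n F, ∑ l : Module.Dual F (N n F), gSum theta l y * theta (-(l (sub1 g)))
      = (Nat.card (N n F) : ℂ) *
        ((Finset.univ.filter (fun p : U n F × U n F => act p.1 p.2 (sub1 y) = sub1 g)).card : ℂ) := by
    intro y
    have h2 : ∀ l : Module.Dual F (N n F), gSum theta l y * theta (-(l (sub1 g)))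
        = ∑ p : U n F × U n F, theta (l (act p.1 p.2 (sub1 y) - sub1 g)) := by
      intro l
      unfold gSum
      rw [Fintype.sum_prod_type, Finset.sum_mul]
      refine Finset.sum_congr rfl fun u _ => ?_
      rw [Finset.sum_mul]
      refine Finset.sum_congr rfl fun v _ => ?_
      rw [map_sub, sub_eq_add_neg, AddChar.map_add_eq_mul]
    simp_rw [h2]
    rw [Finset.sum_comm]
    simp_rw [sum_char_dual htheta, sub_eq_zero]
    rw [← Finset.sum_filter, Finset.sum_const, nsmul_eq_mul, mul_comm]
  have h2 := h1 g
  have h3 := h1 h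
  simp_rw [H] at h2
  rw [h2] at h3
  have hN : (Nat.card (N n F) : ℂ) ≠ 0 := by
    rw [← card_U]
    exact cardG_ne
  have h4 := mul_left_cancel₀ hN h3
  have h5 : 0 < (Finset.univ.filter
      (fun p : U n F × U n F => act p.1 p.2 (sub1 g) = sub1 g)).card := by
    rw [Finset.card_pos]
    exact ⟨(1, 1), by simp [act_one]⟩
  have h6 : 0 < (Finset.univ.filter
      (fun p : U n F × U n F => act p.1 p.2 (sub1 h) = sub1 g)).card := by
    have h7 : (Finset.univ.filter
      (fun p : U n F × U n F => act p.1 p.2 (sub1 g) = sub1 g)).card = (Finset.univ.filter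
      (fun p : U n F × U n F => act p.1 p.2 (sub1 h) = sub1 g)).card := by
      exact_mod_cast h4
    rwa [← h7]
  rw [Finset.card_pos] at h6
  obtain ⟨⟨u, v⟩, h7⟩ := h6
  simp only [Finset.mem_filter, Finset.mem_univ, true_and] at h7
  exact ⟨u, v, h7.symm⟩

/-- superclasses of a theory containing the boxes are contained in Andre's superclasses -/
theorem classes_le (htheta : ∃ x, theta x ≠ 1) (T : SuperTheory (U n F))
    (hT : ContainsBoxes theta T) {g h : U n F} (H : T.classes.r g h) : SameSuperclass g h := by
  apply separate htheta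
  intro l
  obtain ⟨c, rfl⟩ := fn_surj l
  refine gSum_const T.classes.r ?_ n c (fun k l hk => by omega) g h H
  intro i j a hij ha g h hr
  obtain ⟨chi, ⟨b, hb, hchi⟩, hcont⟩ := hT i j a hij ha
  have h1 : ∀ g, sigma T.chars chi g = chi.1 1 * chi.1 g := by
    intro g
    rw [sigma_eq, Finset.sum_eq_single chi]
    · rw [if_pos (T.chars.refl chi)]
    · intro psi _ hne
      rw [if_neg (fun h => hne (hcont psi h))]
    · intro h
      exact absurd (Finset.mem_univ _) h
  have h2 := T.const chi g h hr
  rw [h1, h1] at h2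
  have h3 := mul_left_cancel₀ chi.2.one_ne h2
  rw [hchi, hchi] at h3
  have hb' : (b : ℂ) ≠ 0 := by exact_mod_cast hb.ne'
  have h4 := mul_left_cancel₀ hb' h3
  have h5 := gSum_orbSum (theta := theta) (box i j a) g
  have h6 := gSum_orbSum (theta := theta) (box i j a) h
  rw [h4, h6] at h5
  have hO : (Nat.card (orb (box i j a)) : ℂ) ≠ 0 := by
    exact_mod_cast (card_orb_pos _).ne'
  exact (mul_left_cancel₀ hO h5).symm

section Chars

variable {G : Type} [Group G] [Fintype G]

/-- A function constant on the superclasses of a theory has coefficients proportional to degrees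
on the blocks of characters. -/
lemma coeff_block (T : SuperTheory G) {f : G → ℂ} (hf : ∀ g h, T.classes.r g h → f g = f h)
    {chi psi : IrrChar G} (h : T.chars.r chi psi) :
    B f chi.1 * psi.1 1 = B f psi.1 * chi.1 1 := by
  -- the map from functions on blocks of characters to functions on classes
  let L : (Quotient T.chars → ℂ) →ₗ[ℂ] (Quotient T.classes → ℂ) :=
    { toFun := fun c q => ∑ p : Quotient T.chars,
        c p * sigma T.chars (Quotient.out p) (Quotient.out q)
      map_add' := by
        intro a b
        funext q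
        simp only [Pi.add_apply, add_mul, Finset.sum_add_distrib]
      map_smul' := by
        intro a b
        funext q
        simp only [Pi.smul_apply, smul_eq_mul, mul_assoc, Finset.mul_sum, RingHom.id_apply] }
  -- the function on G attached to c
  have hext : ∀ (c : Quotient T.chars → ℂ) (g : G),
      L c ⟦g⟧ = ∑ p : Quotient T.chars, c p * sigma T.chars (Quotient.out p) g := by
    intro c g
    refine Finset.sum_congr rfl fun p _ => ?_
    congr 1
    refine T.const _ _ _ ?_
    exact Quotient.exact (Quotient.out_eq _)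
  have hB : ∀ (c : Quotient T.chars → ℂ) (rho : IrrChar G),
      B (fun g => L c ⟦g⟧) rho.1 = c ⟦rho⟧ * rho.1 1 := by
    intro c rho
    have h1 : (fun g => L c ⟦g⟧)
        = ∑ p : Quotient T.chars, c p • sigma T.chars (Quotient.out p) := by
      funext g
      rw [hext, Finset.sum_apply]
      rfl
    rw [h1, Pool.Agent.Helper884.IC.B_sum_left]
    simp only [Pool.Agent.Helper884.IC.B_smul_left, B_sigma]
    rw [Finset.sum_eq_single ⟦rho⟧]
    · rw [if_pos]
      exact Quotient.exact (Quotient.out_eq _)
    · intro p _ hp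
      rw [if_neg, mul_zero]
      intro h2
      apply hp
      rw [← Quotient.out_eq p]
      exact Quotient.sound h2
    · intro h2
      exact absurd (Finset.mem_univ _) h2
  have hinj : Function.Injective L := by
    rw [← LinearMap.ker_eq_bot, LinearMap.ker_eq_bot']
    intro c hc
    funext q
    obtain ⟨rho, rfl⟩ := Quotient.exists_rep q
    have h1 := hB c rho
    rw [hc] at h1
    have h2 : B (fun g : G => (0 : Quotient T.classes → ℂ) ⟦g⟧) rho.1 = 0 := by
      unfold B
      simp
    rw [h2] at h1
    rcases mul_eq_zero.mp h1.symm with h3 | h3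
    · exact h3
    · exact absurd h3 rho.2.one_ne
  have hfr : Module.finrank ℂ (Quotient T.chars → ℂ) = Module.finrank ℂ (Quotient T.classes → ℂ) := by
    rw [Module.finrank_fintype_fun_eq_card, Module.finrank_fintype_fun_eq_card,
      ← Nat.card_eq_fintype_card, ← Nat.card_eq_fintype_card]
    exact T.card_eq
  have hsurj : Function.Surjective L :=
    (LinearMap.injective_iff_surjective_of_finrank_eq_finrank hfr).mp hinj
  obtain ⟨c, hc⟩ := hsurj (fun q => f (Quotient.out q))
  have h1 : (fun g => L c ⟦g⟧) = f := by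
    funext g
    rw [hc]
    exact hf _ _ (Quotient.exact (Quotient.out_eq _))
  have h2 := hB c chi
  have h3 := hB c psi
  rw [h1] at h2 h3
  have h4 : (⟦chi⟧ : Quotient T.chars) = ⟦psi⟧ := Quotient.sound h
  rw [h2, h3, h4]
  ring

end Chars

theorem coarser (htheta : ∃ x, theta x ≠ 1) (T : SuperTheory (U n F))
    (hT : ContainsBoxes theta T) : (andre n htheta).Coarser T := by
  refine ⟨fun g h H => classes_le htheta T hT H, ?_⟩
  intro chi psi h
  obtain ⟨l, hl⟩ := orb_exists htheta chi.2
  refine ⟨l, hl, ?_⟩
  have h1 := coeff_block T (f := orbSum theta l)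
    (fun g h H => orbSum_superclass l (classes_le htheta T hT H)) h
  intro h2
  rw [h2, zero_mul] at h1
  rcases mul_eq_zero.mp h1 with h3 | h3
  · exact hl h3
  · exact psi.2.one_ne h3

end Pool.Agent.W368.SC
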